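import Pool.Agent.Helper47.RFn.Alg

/-!
# Project FLG (MP_c98eff_gt, strict pointwise 1/4-pinching, all n ≥ 4): quarter pinched flag curvature

`FG`: planes which share a line have curvature ratio at most 4.  Paper: team-store `helper47_flag.md`.
Every `def ... : Prop` named `G_X` is a packet, its docstring is the proof; other goals may be used as hypotheses.
Conventions of `Helper47/RFn/Alg.lean` (`R a b a b` = sectional curvature).  In docstrings `K(u,v) = K2 R u v`,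
indices `1,2,3` = the vectors `z, x, y`.
-/

namespace Pool.Agent.Helper47.FLG

open Finset Pool.Agent.Helper47.RFn

def dot {n : ℕ} (u v : Fin n → ℝ) : ℝ := ∑ i, u i * v i

/-- squared area -/
def wd {n : ℕ} (u v : Fin n → ℝ) : ℝ := nrm u * nrm v - dot u v ^ 2

/-- the tensor as a multilinear form -/
def R4 {n : ℕ} (R : T4 n) (a b c d : Fin n → ℝ) : ℝ := ∑ i, ∑ j, ∑ k, ∑ l, R i j k l * a i * b j * c k * d l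

/-- flag functional: `4 K(y,z) - K(x,z)` for unit `x, y ⊥ z` -/
def fl {n : ℕ} (R : T4 n) (z x y : Fin n → ℝ) : ℝ := 4 * K2 R y z * wd x z - K2 R x z * wd y z

/-- quarter pinched flag curvature -/
def FG {n : ℕ} (R : T4 n) : Prop := IsCurv R ∧ ∀ z x y, 0 ≤ fl R z x y

/-- orthonormal family -/
def ON {n k : ℕ} (e : Fin k → Fin n → ℝ) : Prop := ∀ i j, dot (e i) (e j) = if i = j then 1 else 0

/-- contraction: the Gram matrix is at most one -/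
def Con {n k : ℕ} (X : Fin k → Fin n → ℝ) : Prop := ∀ c : Fin k → ℝ, nrm (fun j => ∑ i, c i * X i j) ≤ nrm c

/-- `4k Ric(z,z) - (n-1+3k) ∑ K(z,x_i)` -/
def elk {n : ℕ} (k : ℕ) (R : T4 n) (z : Fin n → ℝ) (X : Fin k → Fin n → ℝ) : ℝ :=
  4 * k * rq (Ric R) z - ((n : ℝ) - 1 + 3 * k) * ∑ i, K2 R z (X i)

/-- squared norm of the traceless Ricci tensor -/
noncomputable def hh {n : ℕ} (R : T4 n) : ℝ := ∑ a, ∑ b, Ric0 R a b ^ 2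

/-- complex vector `a + i b` -/
noncomputable def cv {n : ℕ} (a b : Fin n → ℝ) : Fin n → ℂ := fun k => (a k : ℂ) + Complex.I * (b k : ℂ)

/-- unit vector of the standard basis -/
def sb {n : ℕ} (i : Fin n) : Fin n → ℝ := fun j => if i = j then 1 else 0

/-- rotated tensor, `O` has orthonormal rows -/
def rot {n : ℕ} (O : Fin n → Fin n → ℝ) (R : T4 n) : T4 n := fun a b c d => R4 R (O a) (O b) (O c) (O d)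

/-! ## Toolbox -/

/-- R4T (1 h).  Toolbox for `R4`.  Unfold; symmetries from `IsCurv` by relabelling the sums.  `qf` of `a + ib, c + id`: expand
`R(z,w,z̄,w̄)`; real part `= K(a,c)+K(a,d)+K(b,c)+K(b,d) + 2 R(a,d,b,c) - 2 R(a,c,b,d)` and by Bianchi
`R(a,d,b,c) - R(a,c,b,d) = -R(a,b,c,d)`. -/
def G_R4T : Prop := ∀ n : ℕ,
  (∀ (R : T4 n) (a a' b c d : Fin n → ℝ) (s t : ℝ),
    R4 R (fun i => s * a i + t * a' i) b c d = s * R4 R a b c d + t * R4 R a' b c d ∧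
    R4 R b (fun i => s * a i + t * a' i) c d = s * R4 R b a c d + t * R4 R b a' c d ∧
    R4 R b c (fun i => s * a i + t * a' i) d = s * R4 R b c a d + t * R4 R b c a' d ∧
    R4 R b c d (fun i => s * a i + t * a' i) = s * R4 R b c d a + t * R4 R b c d a') ∧
  (∀ (R S : T4 n) (a b c d : Fin n → ℝ) (t : ℝ), R4 (R + S) a b c d = R4 R a b c d + R4 S a b c d ∧
    R4 (t • R) a b c d = t * R4 R a b c d) ∧
  (∀ R : T4 n, IsCurv R → ∀ a b c d, R4 R a b c d = - R4 R b a c d ∧ R4 R a b c d = - R4 R a b d c ∧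
    R4 R a b c d = R4 R c d a b ∧ R4 R a b c d + R4 R b c a d + R4 R c a b d = 0) ∧
  (∀ (R : T4 n) u v, K2 R u v = R4 R u v u v) ∧
  (∀ R : T4 n, IsCurv R → ∀ u v, K2 R u v = K2 R v u) ∧
  (∀ a b c d, R4 (Id4 n) a b c d = dot a c * dot b d - dot a d * dot b c) ∧
  (∀ u v, K2 (Id4 n) u v = wd u v) ∧ (∀ u v : Fin n → ℝ, 0 ≤ wd u v) ∧ (∀ u : Fin n → ℝ, nrm u = dot u u) ∧
  (∀ (R : T4 n) i j k l, R4 R (sb i) (sb j) (sb k) (sb l) = R i j k l) ∧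
  (∀ (R : T4 n) (a b c d : Fin n → ℝ), R4 R a b c d = ∑ j, a j * R4 R (sb j) b c d ∧
    R4 R a b c d = ∑ j, b j * R4 R a (sb j) c d ∧ R4 R a b c d = ∑ j, c j * R4 R a b (sb j) d ∧
    R4 R a b c d = ∑ j, d j * R4 R a b c (sb j)) ∧
  (∀ R : T4 n, IsCurv R → ∀ a b c d, qf R (cv a b) (cv c d) =
    K2 R a c + K2 R a d + K2 R b c + K2 R b d - 2 * R4 R a b c d) ∧
  (∀ (R : T4 n) v, rq (Ric R) v = ∑ i, R4 R v (sb i) v (sb i))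

/-- ROT (1.2 h, R4T).  Rotations.  `O` is an orthogonal matrix (`ON O` gives also `∑_a O a i * O a j = δ_ij`).  Insert
`δ_ef = ∑_p O p e * O p f` in `BB`.  `dot (O u) (O v) = dot u v` for `(O u) a = dot (O a) u`. -/
def G_ROT : Prop := ∀ (n : ℕ) (O : Fin n → Fin n → ℝ), ON O →
  (∀ u v : Fin n → ℝ, dot (fun a => dot (O a) u) (fun a => dot (O a) v) = dot u v) ∧
  (∀ (R : T4 n) (a b c d : Fin n → ℝ), R4 (rot O R) (fun p => dot (O p) a) (fun p => dot (O p) b)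
    (fun p => dot (O p) c) (fun p => dot (O p) d) = R4 R a b c d) ∧
  (∀ (R : T4 n) (a b c d : Fin n → ℝ), R4 (rot O R) a b c d = R4 R (fun j => ∑ p, a p * O p j)
    (fun j => ∑ p, b p * O p j) (fun j => ∑ p, c p * O p j) (fun j => ∑ p, d p * O p j)) ∧
  (∀ R : T4 n, IsCurv R → IsCurv (rot O R)) ∧ (∀ R : T4 n, FG R → FG (rot O R)) ∧
  (∀ R : T4 n, Q (rot O R) = rot O (Q R)) ∧
  (∀ R : T4 n, lam (rot O R) = lam R) ∧ (∀ R : T4 n, hh (rot O R) = hh R) ∧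
  (∀ (R : T4 n) v, rq (Ric (rot O R)) (fun p => dot (O p) v) = rq (Ric R) v)

/-- FG1 (1 h, R4T, CL).  Closure and homogeneity.  `fl` is linear in `R`; `fl Id4 = 3 wd wd`.  Nonnegativity of `K2`: `x = y`.
Degenerate flags: `wd x z = 0` with curvature tensor gives `K2 R x z = 0` (`x, z` dependent).  Nondegenerate: `z' = z/|z|`, `x'`, `y'` =
normalised components orthogonal to `z`; `K2 R x z = wd x z * K2 R x' z'`. -/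
def G_FG1 : Prop := ∀ n : ℕ,
  (∀ R S : T4 n, FG R → FG S → FG (R + S)) ∧ (∀ (c : ℝ) (R : T4 n), 0 ≤ c → FG R → FG (c • R)) ∧
  (∀ (c : ℝ) (R : T4 n), 0 ≤ c → FG R → FG (R + c • Id4 n)) ∧
  (∀ (R S : T4 n) z x y, fl (R + S) z x y = fl R z x y + fl S z x y) ∧
  (∀ (c : ℝ) (R : T4 n) z x y, fl (c • R) z x y = c * fl R z x y) ∧
  (∀ z x y, fl (Id4 n) z x y = 3 * wd x z * wd y z) ∧
  (∀ R : T4 n, FG R → ∀ u v, 0 ≤ K2 R u v) ∧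
  (∀ R : T4 n, IsCurv R → ∀ z x y, wd x z * wd y z = 0 → fl R z x y = 0) ∧
  (∀ z x y : Fin n → ℝ, wd x z * wd y z ≠ 0 → ∃ z' x' y' : Fin n → ℝ, nrm z' = 1 ∧ nrm x' = 1 ∧ nrm y' = 1 ∧
    dot x' z' = 0 ∧ dot y' z' = 0 ∧ ∀ R : T4 n, IsCurv R →
      fl R z x y = wd x z * wd y z * (4 * K2 R y' z' - K2 R x' z')) ∧
  (∃ C > 0, ∀ (R : T4 n) (M : ℝ), IsCurv R → (∀ a b c d, |R a b c d| ≤ M) → ∀ z x y,
    |fl R z x y| ≤ C * M * (wd x z * wd y z))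

/-- NW (1.5 h, R4T, FG1, NF).  Nonnegative complex sectional curvature, with equality.  Orthonormal `e0 … e3`, `K02 = K(e0,e2)` etc.
(i) flag `z = (e0+e2)/√2`, `x = (e1+e3)/√2`, `y = (e2-e0)/√2` and the same with `e2, e3` replaced by `-e2, -e3`, averaged (the terms
with an odd number of `e2, e3` cancel): `S + ρ ≤ 4 K02` with `4S = K01+K23+K03+K12`, `2ρ = 2 R0123 + R2013` (`R0123 = R4 R e0 e1 e2 e3`,
`R2013 = R4 R e2 e0 e1 e3`): indeed `K(x,z) = S + (odd) + (1/2)(R4 e1 e0 e3 e2 + R4 e1 e2 e3 e0)`.  With the flag `z' = x`, `x' = z`,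
`y' = (e3-e1)/√2`: `S + ρ ≤ 4 K13`.
(ii) the flag with `y = (e3-e1)/√2` instead: `S + ρ ≤ 4 (S - ρ)`.  Three times (i) plus (ii): `2ρ ≤ 3 min(K02,K13)`.
(iii) the same with `(e0,e1,e2,e3) → (e0,e1,e3,-e2)`: `2ρ' ≤ 3 min(K03,K12)`, `2ρ' = R0123 - R2013`... the sum is
`3 R0123 ≤ 3 min(K02,K13) + 3 min(K03,K12)`; change the sign of `e1` and use `e1 → -e1` for the lower bound.
C0: normal form NF and `qf = K02 + lm² K12 + mu² K03 + lm² mu² K13 - 2 lm mu R0123 ≥ (K02 + lm²mu² K13 - 2|lm mu| min(K02,K13)) + …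
≥ 0`.  Equality with `λ > 0` (so all `K > 0`, see FG2): `K02 + lm²mu²K13 ≥ 2|lm mu| √(K02 K13)` gives `K02 = K13`, `|lm mu| = 1`; so
`lm, mu = ±1`; replace `e1` by `lm e1`, `e3` by `mu e3`.  Last claim: `qf` is multiplied by `|αδ-βγ|²` under the change of
basis (RP4 of `Helper47/RFn`, or directly). -/
def G_NW : Prop := ∀ n : ℕ, 4 ≤ n →
  (∀ (R : T4 n) (e : Fin 4 → Fin n → ℝ), FG R → ON e →
    |R4 R (e 0) (e 1) (e 2) (e 3)| ≤ min (K2 R (e 0) (e 2)) (K2 R (e 1) (e 3)) + min (K2 R (e 0) (e 3)) (K2 R (e 1) (e 2))) ∧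
  (∀ R : T4 n, FG R → C0 R) ∧
  (∀ (R : T4 n) (z w : Fin n → ℂ), FG R → (∀ u v, wd u v ≠ 0 → 0 < K2 R u v) → qf R z w = 0 → qf (Id4 n) z w ≠ 0 →
    ∃ e : Fin 4 → Fin n → ℝ, ON e ∧ K2 R (e 0) (e 2) = K2 R (e 1) (e 3) ∧ K2 R (e 0) (e 3) = K2 R (e 1) (e 2) ∧
      R4 R (e 0) (e 1) (e 2) (e 3) = K2 R (e 0) (e 2) + K2 R (e 0) (e 3) ∧
      ∀ S : T4 n, IsCurv S → 4 * qf S z w = qf (Id4 n) z w * qf S (cv (e 0) (e 1)) (cv (e 2) (e 3)))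

/-- FG2 (1.2 h, R4T, FG1, NW, CB, LN).  Bounds.  Two planes `σ, σ'`: choose a unit `a ∈ σ` and a unit `c ∈ σ'` orthogonal to `a`; `K(σ) ≤
4 K(a,c) ≤ 16 K(σ')`.  `n λ = ∑_{i≠j} K(e_i,e_j)` for every orthonormal basis, so `λ ≤ (n-1) K_max ≤ 16 (n-1) K(σ)`.  `|R| ≤ nλ`: NW
and CB.  `Ric(v,v) = ∑_{i≥2} K(v,e_i) ≥ (n-1) K_min`; `nλ = 2 Ric(v,v) + ∑_{i≠j; i,j≥2} K_ij ≥ 2 Ric(v,v) + (n-1)(n-2) λ/(16(n-1))` for unit `v`.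
`|Ric0| ≤ C λ` from the entries. -/
def G_FG2 : Prop := ∀ n : ℕ, 4 ≤ n → ∀ R : T4 n, FG R →
  0 ≤ lam R ∧ (∀ a b c d, |R a b c d| ≤ (n : ℝ) * lam R) ∧
  (∀ u v, lam R / (16 * ((n : ℝ) - 1)) * wd u v ≤ K2 R u v) ∧ (∀ u v, K2 R u v ≤ (n : ℝ) * lam R * wd u v) ∧
  (∀ u v u' v', K2 R u v * wd u' v' ≤ 16 * K2 R u' v' * wd u v) ∧
  (∀ v, lam R / 16 * nrm v ≤ rq (Ric R) v) ∧
  (∀ v, rq (Ric R) v ≤ ((n : ℝ) / 2 - ((n : ℝ) - 2) / 32) * lam R * nrm v) ∧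
  (∀ a b, |Ric0 R a b| ≤ 2 * (n : ℝ) ^ 2 * lam R) ∧ hh R ≤ 4 * (n : ℝ) ^ 6 * lam R ^ 2 ∧
  (lam R = 0 → R = 0) ∧ ((∃ u v, wd u v ≠ 0 ∧ K2 R u v = 0) → R = 0) ∧
  (∀ (k : ℕ) z (X : Fin k → Fin n → ℝ), k + 2 ≤ n → Con X → 0 ≤ elk k R z X)

/-! ## The core in coordinates: `z = e_i0`, `x = e_i1` (eigenvalue 4), `y = e_i2` (eigenvalue 1) -/

structure FlC {n : ℕ} (R : T4 n) (i0 i1 i2 : Fin n) (r : Fin n → ℝ) : Prop where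
  fg : FG R
  d01 : i0 ≠ i1
  d02 : i0 ≠ i2
  d12 : i1 ≠ i2
  dg : ∀ p q, p ≠ q → R i0 p i0 q = 0
  rr : ∀ p, R i0 p i0 p = r p
  r2 : r i2 = 1
  r1 : r i1 = 4

/-- `W_q` -/
def Wt {n : ℕ} (R : T4 n) (i1 i2 q : Fin n) : ℝ :=
  4 * R i2 q i2 q - R i1 q i1 q + 4 * ((if q = i2 then 1 else 0) - (if q = i1 then 1 else 0))

/-- reaction term of the flag -/
def Dl {n : ℕ} (R : T4 n) (i0 i1 i2 : Fin n) : ℝ := 4 * Q R i0 i2 i0 i2 - Q R i0 i1 i0 i1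

/-- `∑_{p,q ≠ i0} (A_pq² - 2 A_pq A_qp)`, `A_pq = R_{i0 p i q}` -/
def bk {n : ℕ} (R : T4 n) (i0 i : Fin n) : ℝ :=
  ∑ p ∈ univ.erase i0, ∑ q ∈ univ.erase i0, (R i0 p i q ^ 2 - 2 * R i0 p i q * R i0 q i p)

/-- gain at `q` (division by zero is zero) -/
noncomputable def Gn {n : ℕ} (R : T4 n) (i0 i1 i2 : Fin n) (r : Fin n → ℝ) (q : Fin n) : ℝ :=
  (∑ p ∈ (univ.erase i0).erase i1, (2 * R i0 p i1 q - R i0 q i1 p) ^ 2 / (4 - r p))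
    + 4 * ∑ p ∈ (univ.erase i0).erase i2, (2 * R i0 p i2 q - R i0 q i2 p) ^ 2 / (r p - 1)

/-- FO (0.8 h, R4T).  First order conditions.  `1 ≤ r p ≤ 4`: the flags `(e_i0; e_i1, e_p)` and `(e_i0; e_p, e_i2)`.  The polynomial
`F(t) = fl R (e_i0 + tζ) e_i1 e_i2`, `ζ = e_q`, is nonnegative and zero at `t = 0`; its first derivative is
`2 (4 R_{i2 i0 i2 q} - R_{i1 i0 i1 q})` (for `q ≠ i0`): so `R_{i1 i0 i1 q} = 4 R_{i2 i0 i2 q}` for all `q ≠ i0`; for `q = i1` the left side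
vanishes, for `q = i2` the right side. -/
def G_FO : Prop := ∀ (n : ℕ) (R : T4 n) (i0 i1 i2 : Fin n) (r : Fin n → ℝ), FlC R i0 i1 i2 r →
  (∀ p, p ≠ i0 → 1 ≤ r p ∧ r p ≤ 4) ∧ R i2 i0 i2 i1 = 0 ∧ R i1 i0 i1 i2 = 0 ∧
  ∀ q, q ≠ i0 → R i1 i0 i1 q = 4 * R i2 i0 i2 q

/-- SV2 (1.5 h, R4T, FO).  Second variation.  `F(t) = fl R (e_i0 + t e_q) (e_i1 + t u) (e_i2 + t v)`, `u, v ⊥ e_i0`, `u_i1 = v_i2 = 0`.
`K2 R (e_i2 + tv) (e_i0 + t e_q) = 1 + 2t w_q + t² [∑ r_p v_p² + R_{i2 q i2 q} + ∑_p v_p (2 A'_qp - 4 A'_pq)] + …`, `w_q = R_{i2 i0 i2 q}`,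
`A'_pq = R_{i0 p i2 q}` (Bianchi: `R_{i2 i0 p q} = A'_qp - A'_pq`), `wd = 1 + t² (|v|² + 1 - δ_{q i2}) + …` (`v_i2 = 0`), the same for `x`:
`K2 R (e_i1 + tu)(e_i0 + t e_q) = 4 + 2t·4w_q + t² [∑ r_p u_p² + R_{i1 q i1 q} + ∑_p u_p (2 A_qp - 4 A_pq)]`.  The coefficient of `t²` of
`F = 4 K2(y,z) wd(x,z) - K2(x,z) wd(y,z)` is the expression (the products of first order terms cancel as `wd` has no first
order term), and it is `≥ 0` since `F ≥ 0`, `F(0) = F'(0) = 0` (`F` is a polynomial in `t`). -/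
def G_SV2 : Prop := ∀ (n : ℕ) (R : T4 n) (i0 i1 i2 : Fin n) (r : Fin n → ℝ), FlC R i0 i1 i2 r →
  ∀ q, q ≠ i0 → ∀ u v : Fin n → ℝ, u i0 = 0 → u i1 = 0 → v i0 = 0 → v i2 = 0 →
    0 ≤ Wt R i1 i2 q + ∑ p, (4 - r p) * u p ^ 2 + 4 * ∑ p, (r p - 1) * v p ^ 2
      + 2 * ∑ p, (2 * R i0 p i1 q - R i0 q i1 p) * u p - 8 * ∑ p, (2 * R i0 p i2 q - R i0 q i2 p) * v p

/-- GQ (0.8 h, SV2, FO).  Optimal `u, v` in SV2.  If `4 - r_p > 0` take `u_p = -(2A_pq - A_qp)/(4 - r_p)`, else `u_p = 0`; the same for `v`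
(`v_p = (2A'_pq - A'_qp)/(r_p - 1)`).  If `r_p = 4` and the numerator is not `0`, let `u_p = s`, `s → ±∞`: contradiction. -/
def G_GQ : Prop := ∀ (n : ℕ) (R : T4 n) (i0 i1 i2 : Fin n) (r : Fin n → ℝ), FlC R i0 i1 i2 r →
  ∀ q, q ≠ i0 → Gn R i0 i1 i2 r q ≤ Wt R i1 i2 q ∧
    (∀ p, p ≠ i0 → p ≠ i1 → r p = 4 → 2 * R i0 p i1 q = R i0 q i1 p) ∧
    (∀ p, p ≠ i0 → p ≠ i2 → r p = 1 → 2 * R i0 p i2 q = R i0 q i2 p)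

/-- DID (1.2 h, R4T).  The identity.  `(Q R)_{1212} = ⟨R_1,R_2⟩ + |A|² - 2⟨A,Aᵀ⟩` (unfold `Q`, `BB`), sums over all indices; the entries of
`A_pq = R_{i0 p i1 q}` with an index `i0` are `A_{i1 i0} = -4` and zero otherwise (`A_{p i0} = -r_p δ_{p i1}`, `A_{i0 q} = 0`), so
`Q_{i0 i1 i0 i1} = ∑_{q≠i0} r_q R_{i1 q i1 q} + 16 + bk A`, `Q_{i0 i2 i0 i2} = ∑ r_q R_{i2 q i2 q} + 1 + bk A'`; and
`∑_{q≠i0} r_q 4 (δ_{q i2} - δ_{q i1}) = 4 - 16 = 4·1 - 16`. -/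
def G_DID : Prop := ∀ (n : ℕ) (R : T4 n) (i0 i1 i2 : Fin n) (r : Fin n → ℝ), FlC R i0 i1 i2 r →
  Dl R i0 i1 i2 = (∑ q ∈ univ.erase i0, r q * Wt R i1 i2 q) + 4 * bk R i0 i2 - bk R i0 i1

/-- SCA (1.2 h).  Scalar inequalities, `p, q ∈ [1,4]` (division by zero is zero).  With `X = 2a - b`, `Y = 2b - a`:
`a² + b² - 4ab = -(X² + Y² + 4XY)/3`.  (1) for `p, q < 4` the form is `X²(q/(4-p) + 1/3) + Y²(p/(4-q) + 1/3) + (4/3)XY` with discriminant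
condition `f(p,q) = -16 + 8(p+q) + 2pq - p² - q² ≥ 0`, `f` increasing in both variables on `[1,4]²`, `f(1,1) = 0`; if `p = 4`
then `X = 0` and the rest is `Y²(..)`.  (2) the form is `X²(q/(p-1) - 1/3) + Y²(p/(q-1) - 1/3) - (4/3)XY`, condition
`-1 + 2(p+q) + 2pq - p² - q² ≥ 0`, i.e. `|√p - √q| ≤ 1`; equality only `{p,q} = {1,4}`.  (3) `64/(3-s) + 4/s ≥ 100/3`.
(4) `X = 2β+γ`, `Y = β-γ`: `a X² + c Y² - 2b XY`, `a = 16/s + τ + 3`, `c = 1/(3-s) + τ - 2`, `b = τ + 1`, `τ = 5(1+s)/3`;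
`3(3-s)(ac - b²) = 192 - 64s + 5s² > 0`, `c = s(1/(3(3-s)) + 5/3)`. -/
def G_SCA : Prop :=
  (∀ p q a b : ℝ, 1 ≤ p → p ≤ 4 → 1 ≤ q → q ≤ 4 → (p = 4 → 2 * a = b) → (q = 4 → 2 * b = a) →
    0 ≤ q * ((2 * a - b) ^ 2 / (4 - p)) + p * ((2 * b - a) ^ 2 / (4 - q)) - (a ^ 2 + b ^ 2 - 4 * a * b) ∧
    (q * ((2 * a - b) ^ 2 / (4 - p)) + p * ((2 * b - a) ^ 2 / (4 - q)) - (a ^ 2 + b ^ 2 - 4 * a * b) = 0 →
      (p = 1 ∧ q = 1 ∧ a + b = 0) ∨ (a = 0 ∧ b = 0))) ∧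
  (∀ p q a b : ℝ, 1 ≤ p → p ≤ 4 → 1 ≤ q → q ≤ 4 → (p = 1 → 2 * a = b) → (q = 1 → 2 * b = a) →
    0 ≤ q * ((2 * a - b) ^ 2 / (p - 1)) + p * ((2 * b - a) ^ 2 / (q - 1)) + (a ^ 2 + b ^ 2 - 4 * a * b) ∧
    (q * ((2 * a - b) ^ 2 / (p - 1)) + p * ((2 * b - a) ^ 2 / (q - 1)) + (a ^ 2 + b ^ 2 - 4 * a * b) = 0 →
      (p = 4 ∧ q = 1 ∧ a = 2 * b) ∨ (p = 1 ∧ q = 4 ∧ b = 2 * a) ∨ (a = 0 ∧ b = 0))) ∧
  (∀ s w : ℝ, 0 ≤ s → s ≤ 3 → (s = 0 → w = 0) → (s = 3 → w = 0) →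
    0 ≤ 64 * w ^ 2 / (3 - s) + 4 * w ^ 2 / s - 12 * w ^ 2 ∧
    (64 * w ^ 2 / (3 - s) + 4 * w ^ 2 / s - 12 * w ^ 2 = 0 → w = 0)) ∧
  (∀ s β γ : ℝ, 0 ≤ s → s ≤ 3 → (s = 0 → 2 * β + γ = 0) → (s = 3 → β = γ) →
    0 ≤ 16 * (2 * β + γ) ^ 2 / s + (β - γ) ^ 2 / (3 - s) + 5 / 3 * (1 + s) * (β + 2 * γ) ^ 2 + 3 * γ ^ 2 + 6 * β ^ 2
      + 18 * β * γ ∧
    (16 * (2 * β + γ) ^ 2 / s + (β - γ) ^ 2 / (3 - s) + 5 / 3 * (1 + s) * (β + 2 * γ) ^ 2 + 3 * γ ^ 2 + 6 * β ^ 2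
      + 18 * β * γ = 0 → (s = 0 ∧ γ = -2 * β) ∨ (β = 0 ∧ γ = 0)))

/-- PSI (2 h, FO, GQ, SCA).  The remaining quadratic form.  `Ψ = ∑_{q≠i0} r_q Gn_q + 4 bk A' - bk A` is a sum over unordered pairs
and diagonal terms.  Indices `p, q ∉ {i0,i1,i2}`: pair `{p,q}`: SCA (1) for `a = A_pq, b = A_qp` and `4 ×` SCA (2) for `A'`; diagonal:
`r_q A_qq²/(4-r_q) + A_qq²` and `4 A'_qq² (r_q/(r_q-1) - 1)`.  Pairs with `i1, i2`, for fixed `q ∉ {i0,i1,i2}`, `s = r_q - 1`,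
`w = R_{i2 i0 i2 q}`, `β = R_{i0 q i1 i2}`, `γ = R_{i0 i1 i2 q}`: `A_{i1 q} = -4w`, `A_{q i1} = 0`, `A_{i2 q} = α = β + γ` (Bianchi), `A_{q i2} = β`,
`A'_{i2 q} = -w`, `A'_{q i2} = 0`, `A'_{i1 q} = γ`, `A'_{q i1} = -β`.  Gains: at `i1` (`r = 4`): `16 w²/(4-r_q) + 4(2β+γ)²/(r_q-1)`; at `i2`
(`r = 1`): `(β-γ)²/(4-r_q) + 4 w²/(r_q-1)`; at `q`, from `p = i2`: `(β+2γ)²/3` and from `p = i1`: `4(β+2γ)²/3`.  With the blocks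
`-(16w²) + 4w²`, `-(α²+β²-4αβ) + 4(γ²+β²+4βγ) = 3γ²+6β²+18βγ`: SCA (3) and (4).  The pair `{i1,i2}` and the diagonal terms at `i1, i2`
vanish (FO: `A_{i1 i2} = -R_{i1 i0 i1 i2} = 0`, `A'_{i2 i1} = 0` …; `A_{i2 i2} = R_{i0 i2 i1 i2} = 0`, `A'_{i1 i1} = 0`).  Equality: all terms are zero.
The hypotheses `p = 4 → …` of SCA are the last claims of GQ (for `p = i2`, `i1` too: `4(2β+γ)²/(r_q-1)` at `q' = i1` etc.). -/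
def G_PSI : Prop := ∀ (n : ℕ) (R : T4 n) (i0 i1 i2 : Fin n) (r : Fin n → ℝ), FlC R i0 i1 i2 r →
  0 ≤ (∑ q ∈ univ.erase i0, r q * Gn R i0 i1 i2 r q) + 4 * bk R i0 i2 - bk R i0 i1 ∧
  ((∑ q ∈ univ.erase i0, r q * Gn R i0 i1 i2 r q) + 4 * bk R i0 i2 - bk R i0 i1 = 0 →
    (∀ q, q ≠ i0 → R i2 i0 i2 q = 0) ∧
    (∀ p q, p ≠ i0 → q ≠ i0 → (r p = 1 ∧ r q = 1 ∧ R i0 p i1 q + R i0 q i1 p = 0) ∨
      (R i0 p i1 q = 0 ∧ R i0 q i1 p = 0)) ∧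
    (∀ p q, p ≠ i0 → q ≠ i0 → (r p = 4 ∧ r q = 1 ∧ R i0 p i2 q = 2 * R i0 q i2 p) ∨
      (r p = 1 ∧ r q = 4 ∧ R i0 q i2 p = 2 * R i0 p i2 q) ∨ (R i0 p i2 q = 0 ∧ R i0 q i2 p = 0)))

/-- EQC (1.2 h, FO, GQ, DID, PSI).  `Dl ≥ 0`, and the equality case in coordinates.  `Dl = ∑ r_q (Wt_q - Gn_q) + Ψ`, `r_q ≥ 1`.  If `Dl = 0`:
`Ψ = 0` and `Wt_q = Gn_q` for all `q ≠ i0`.  At `q = i1`: all numerators vanish or have zero denominators (`2A_{p i1} - A_{i1 p} =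
4w_p = 0`; `2A'_{p i1} - A'_{i1 p} = -(2β+γ) = 0`): `Gn = 0`, `R_{i1 i2 i1 i2} = 1`.  At `q = i2`: `Gn = ∑_{p: r_p = 1} (2β_p - α_p)²/3 = 3 ∑ β_p²`
(`γ = -2β`, `α = -β`), and `Wt = 4 - 1 = 3`: `∑_p R_{i0 p i1 i2}² = 1`.  At other `q`: if `r_q ≠ 1` then `Gn_q = 0`; if `r_q = 1`:
`(2A_pq - A_qp)²/(4-1) = 3A_pq²` (skew) and for `r_p = 4`: `4 (2A'_pq - A'_qp)²/3 = 3 A'_pq²` (`A'_pq = 2A'_qp`); the other terms vanish. -/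
def G_EQC : Prop := ∀ (n : ℕ) (R : T4 n) (i0 i1 i2 : Fin n) (r : Fin n → ℝ), FlC R i0 i1 i2 r →
  0 ≤ Dl R i0 i1 i2 ∧ (Dl R i0 i1 i2 = 0 →
    (∀ q, q ≠ i0 → R i2 i0 i2 q = 0 ∧ R i1 i0 i1 q = 0) ∧ R i1 i2 i1 i2 = 1 ∧ (∑ p, R i0 p i1 i2 ^ 2) = 1 ∧
    (∀ p q, p ≠ i0 → q ≠ i0 → (r p = 1 ∧ r q = 1 ∧ R i0 p i1 q + R i0 q i1 p = 0) ∨
      (R i0 p i1 q = 0 ∧ R i0 q i1 p = 0)) ∧
    (∀ p q, p ≠ i0 → q ≠ i0 → (r p = 4 ∧ r q = 1 ∧ R i0 p i2 q = 2 * R i0 q i2 p) ∨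
      (r p = 1 ∧ r q = 4 ∧ R i0 q i2 p = 2 * R i0 p i2 q) ∨ (R i0 p i2 q = 0 ∧ R i0 q i2 p = 0)) ∧
    (∀ q, q ≠ i0 → q ≠ i1 → q ≠ i2 → r q ≠ 1 → 4 * R i2 q i2 q = R i1 q i1 q) ∧
    (∀ q, q ≠ i0 → q ≠ i1 → q ≠ i2 → r q = 1 →
      4 * R i2 q i2 q - R i1 q i1 q = 3 * ∑ p, R i0 p i1 q ^ 2 + 3 * ∑ p, R i0 p i2 q ^ 2))

end Pool.Agent.Helper47.FLG
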