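import Pool.Agent.Helper47.FLG.Alg

/-!
# Project FLG: invariance of `FG` and strictness statements, basis free
-/

namespace Pool.Agent.Helper47.FLG

open Finset Pool.Agent.Helper47.RFn

/-- orthonormal triple `z, x, y` with `K(z,x) = 4`, `K(z,y) = 1` -/
structure Ac {n : ℕ} (R : T4 n) (z x y : Fin n → ℝ) : Prop where
  fg : FG R
  nz : nrm z = 1
  nx : nrm x = 1
  ny : nrm y = 1
  zx : dot z x = 0
  zy : dot z y = 0
  xy : dot x y = 0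
  k4 : K2 R z x = 4
  k1 : K2 R z y = 1

/-- `q ⊥ z` is an eigenvector of `R_z` with eigenvalue `s` -/
def Eg {n : ℕ} (R : T4 n) (z : Fin n → ℝ) (s : ℝ) (q : Fin n → ℝ) : Prop :=
  dot q z = 0 ∧ ∀ p, R4 R z p z q = s * dot p q

/-- reaction term of the flag, `Δ` -/
def Dz {n : ℕ} (R : T4 n) (z x y : Fin n → ℝ) : ℝ := 4 * K2 (Q R) y z - K2 (Q R) x z

/-- EQF (2 h, R4T, ROT, EQC).  Basis free version of EQC.  Spectral theorem for the symmetric form `R_z` on `z^⊥`: `x` is a maximal and `y` a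
minimal eigenvector (`1 ≤ R_z ≤ 4` by the flags, `R_z(x,x) = 4`, `R_z(y,y) = 1`), so there is an orthonormal basis `O` of `ℝⁿ` with
`O i0 = z`, `O i1 = x`, `O i2 = y` (`i0, i1, i2` = `0, 1, 2`; `n ≥ 3` because of the triple) and all `O a`, `a ≠ i0`, eigenvectors.  Then
`FlC (rot O R) 0 1 2 r`, `Dl (rot O R) = Dz R z x y`, and EQC in terms of the `O a`.  The claims for arbitrary eigenvectors follow by
expanding in the basis: an eigenvector with eigenvalue `s` is a combination of the `O a` with `r a = s`.  For the last claim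
choose the basis such that `q/|q|` is one of its elements (`q` is an eigenvector orthogonal to `x` and `y`). -/
def G_EQF : Prop := ∀ (n : ℕ) (R : T4 n) (z x y : Fin n → ℝ), Ac R z x y →
  0 ≤ Dz R z x y ∧ Eg R z 4 x ∧ Eg R z 1 y ∧ (∀ q, dot q z = 0 → nrm q ≤ R4 R z q z q ∧ R4 R z q z q ≤ 4 * nrm q) ∧
  (∀ q, dot q z = 0 → R4 R z q z q = 4 * nrm q → Eg R z 4 q) ∧ (∀ q, dot q z = 0 → R4 R z q z q = nrm q → Eg R z 1 q) ∧
  (Dz R z x y = 0 →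
    Eg R x 4 z ∧ Eg R y 1 z ∧ K2 R x y = 1 ∧ (∑ i, R4 R z (sb i) x y ^ 2) = 1 ∧
    (∀ p q, Eg R z 1 p → Eg R z 1 q → R4 R z p x q = - R4 R z q x p) ∧
    (∀ p q s, dot p z = 0 → Eg R z s q → s ≠ 1 → R4 R z p x q = 0 ∧ R4 R z q x p = 0) ∧
    (∀ p q, Eg R z 4 p → Eg R z 1 q → R4 R z p y q = 2 * R4 R z q y p) ∧
    (∀ p q, Eg R z 1 p → Eg R z 1 q → R4 R z p y q = 0) ∧ (∀ p q, Eg R z 4 p → Eg R z 4 q → R4 R z p y q = 0) ∧
    (∀ p q s, dot p z = 0 → Eg R z s q → s ≠ 1 → s ≠ 4 → R4 R z p y q = 0 ∧ R4 R z q y p = 0) ∧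
    (∀ q s, Eg R z s q → s ≠ 1 → dot q x = 0 → 4 * K2 R y q = K2 R x q) ∧
    (∀ q, Eg R z 1 q → dot q y = 0 → 4 * K2 R y q - K2 R x q =
      3 * (∑ i, R4 R z (sb i) x q ^ 2) + 3 * (∑ i, R4 R z (sb i) y q ^ 2)))

/-- DELF (1 h, FG1, FG2, EQF, CL).  `FG` is invariant under the reaction ODE.  FG1: degenerate flags are trivial (`Q R` is a curvature tensor);
otherwise pass to unit `x', y' ⊥ z'` with `4K(y',z') = K(x',z')`.  `m = K(y',z')`; if `m = 0` then `R = 0` (FG2, for `n ≥ 4`).  Otherwise apply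
EQF to `m⁻¹ • R`: by the flags `x'` and `y'` are eigenvectors of `R_z'` with different eigenvalues `4m, m`, so `x' ⊥ y'`;
`Q (c • R) = c² • Q R`. -/
def G_DELF : Prop := ∀ n : ℕ, 4 ≤ n → ∀ R : T4 n, FG R → ∀ z x y, fl R z x y = 0 → 0 ≤ fl (Q R) z x y

/-! ## Strictness (SA) -/

/-- SA1 (1 h, FG2, LN, R4T).  Equality in `elk ≥ 0`.  Let `e_q` be an orthonormal eigenbasis of `R_z` on `z^⊥` with eigenvalues `r_q ∈
[m, 4m]`, `ω_q = ∑_i dot (X i) (e_q)² ∈ [0,1]`, `∑ ω_q ≤ k`, `l = n-1-k ≥ 1`: `elk = 4k ∑ r_q - (4k + l) ∑ r_q ω_q`.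
`∑ r_q ω_q ≤ T` = sum of the `k` largest, and `4k ∑ r_q - (4k+l) T = 4k (rest) - l T ≥ 4k l m - l·4k m = 0`.  Equality forces:
`rest` all equal `m`, the `k` largest all `4m`, and `∑ r_q ω_q = T`, so `ω_q = 1` for the `k` largest and `0` for the others; then
`X i` has no component along `z` (`∑ |X i|² ≤ k`) and the `X i` are orthonormal (contraction with `∑ |X i|² = k`).  `m > 0`. -/
def G_SA1 : Prop := ∀ n : ℕ, 4 ≤ n → ∀ (R : T4 n) (k : ℕ) z (X : Fin k → Fin n → ℝ), FG R → 0 < lam R → nrm z = 1 → 1 ≤ k →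
  k + 2 ≤ n → Con X → elk k R z X = 0 → ∃ m > 0, ON X ∧ (∀ i, dot (X i) z = 0) ∧ (∀ i, Eg R z (4 * m) (X i)) ∧
    ∀ q, dot q z = 0 → (∀ i, dot q (X i) = 0) → Eg R z m q

/-- SA2 (0.8 h, R4T, LN).  `elk` of any curvature tensor for orthonormal `X ⊥ z`: complete by orthonormal `Y` to a basis:
`elk k S z X = ∑_i ∑_j (4 K2 S (Y j) z - K2 S (X i) z)` (`n - 1 - k` vectors `Y j`), since `Ric(z,z) = ∑ K(z,X_i) + ∑ K(z,Y_j)`. -/
def G_SA2 : Prop := ∀ n : ℕ, ∀ (k l : ℕ) z (X : Fin k → Fin n → ℝ) (Y : Fin l → Fin n → ℝ), 1 + k + l = n → nrm z = 1 →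
  ON X → ON Y → (∀ i, dot (X i) z = 0) → (∀ j, dot (Y j) z = 0) → (∀ i j, dot (X i) (Y j) = 0) → ∀ S : T4 n, IsCurv S →
    elk k S z X = ∑ i, ∑ j, (4 * K2 S (Y j) z - K2 S (X i) z) ∧
    (∀ v : Fin n → ℝ, nrm v = dot v z ^ 2 + ∑ i, dot v (X i) ^ 2 + ∑ j, dot v (Y j) ^ 2) ∧
    (∀ u v : Fin n → ℝ, (∑ c, R4 S u (sb c) v (sb c)) = R4 S u z v z + ∑ i, R4 S u (X i) v (X i) + ∑ j, R4 S u (Y j) v (Y j))

/-- SA3 (1.5 h, EQF, R4T, SA2).  The structure at a vertex `z` where all flags have zero reaction term (`m = 1`): then `R` is Einstein.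
Let `x ∈ E4`, `y ∈ E1` be unit vectors (`E4 = span X`, `E1 = span Y`; then `Ac R z x y`; `Dz R z x y = 0` for all of them, by the
hypothesis for all bases: hypothesis `hD`).  From EQF: (1) `z` is an eigenvector of `R_x` (value 4) and of `R_y` (value 1); (2)
`K(x,y) = 1`; (3) with `T_p(y,q) := R4 R z y p q` (`p ∈ E4`; `y, q ∈ E1`; antisymmetric in `y, q`): `∑_q T_x(y,q)² = 1` for unit `x, y`
(fourth claim: `∑_i R4 R z (sb i) x y ^ 2 = 1`, the components of `R(z,·,x,y)` outside `E1` vanish by the claim for `s ≠ 1`).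
(4) `x' ∈ E4`, `x' ⊥ x`: `4 K(y,x') = K(x,x')`, so `K(x,x') = 4`.  (5) `y' ∈ E1`, `y' ⊥ y`, unit: `4 K(y,y') - K(x,y') = 3·1 + 3 ∑_{p∈X} (R4 R z p y y')²`
and `R4 R z p y y' = 2 R4 R z y' y p = 2 T_p(y,y')` up to sign, so `K(y,y') = 1 + 3 ∑_{p ∈ X} T_p(y,y')²`.
Ricci: `Ric(z,z) = 4k + l`; `Ric(x,x) = 4 + 4(k-1) + l`; `Ric(y,y) = 1 + k + (l-1) + 3k`.  So `Ric = (4k+l)|·|²` on `ℝz`, `E4`, `E1`
separately.  Off diagonal: `Ric(z,x) = ∑_e R(z,e,x,e)`: zero for every basis vector `e` (claims for `x`; diagonal of an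
antisymmetric form); `Ric(z,y) = 0` in the same way.  `Ric(x,y) = ∑_e R_e(x,y)`: `e = z`: eigenvectors; `e = x' ∈ E4`, `x' ⊥ x`: `R_x'` takes
the values `4` at `x, z` and `1` at `y`; by the flags at `x'` its eigenvalues are in `[1,4]`, so `x` is an eigenvector and `R_x'(x,y) = 0`;
`e = y' ∈ E1`, `y' ⊥ y`: `R_y'` takes the value `1` at `z` and `x`, and the value `1 + 3 ∑_p' T_p'(y',v)² ≥ 4` at the unit vector
`v = T_x y'`, so its eigenvalues are in `[1,4]` and `x` is an eigenvector.  `e = x, y` give `0`. -/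
def G_SA3 : Prop := ∀ n : ℕ, 4 ≤ n → ∀ (R : T4 n) (k l : ℕ) z (X : Fin k → Fin n → ℝ) (Y : Fin l → Fin n → ℝ), 1 + k + l = n →
  1 ≤ k → 1 ≤ l → FG R → nrm z = 1 → ON X → ON Y → (∀ i, dot (X i) z = 0) → (∀ j, dot (Y j) z = 0) →
  (∀ i j, dot (X i) (Y j) = 0) → (∀ i, Eg R z 4 (X i)) → (∀ j, Eg R z 1 (Y j)) →
  (∀ x y, Ac R z x y → Dz R z x y = 0) → hh R = 0

/-- SA (1 h, SA1, SA2, SA3, EQF, LN).  First strictness statement.  SA1 gives `m`; scale to `m = 1` (`R' = m⁻¹ • R`, `Q R' = m⁻² • Q R`,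
`hh R' = m⁻² hh R`).  SA2 for `S = Q R'`: `elk k (Q R') z X = ∑ Dz R' z (X i) (Y j) ≥ 0` (EQF) for every orthonormal basis `Y` of the
complement; it does not change if `X` is replaced by another orthonormal basis of its span.  If it is `0` then all
`Dz R' z x y = 0` (complete `x`, `y` to bases), and SA3 gives `hh = 0`. -/
def G_SA : Prop := ∀ n : ℕ, 4 ≤ n → ∀ (R : T4 n) (k : ℕ) z (X : Fin k → Fin n → ℝ), FG R → 0 < lam R → nrm z = 1 → 1 ≤ k →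
  k + 2 ≤ n → Con X → elk k R z X = 0 → hh R ≠ 0 → 0 < elk k (Q R) z X

/-! ## Null planes -/

/-- frame of a null 4-space with vanishing reaction term, `m = 1`; `J e0 = e1`, `J e2 = e3` -/
structure NV {n : ℕ} (R : T4 n) (e : Fin 4 → Fin n → ℝ) : Prop where
  fg : FG R
  on : ON e
  k02 : K2 R (e 0) (e 2) = 1
  nul : qf R (cv (e 0) (e 1)) (cv (e 2) (e 3)) = 0

/-- real linear combination -/
def lc {n : ℕ} (e : Fin 4 → Fin n → ℝ) (a b c d : ℝ) : Fin n → ℝ := fun i => a * e 0 i + b * e 1 i + c * e 2 i + d * e 3 i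

/-- the unitary frame with first vector `a + ib` times `e0`, plus `c + id` times `e2`, and `u` times the orthogonal vector
`(-(c - id), a - ib)`; `J` acts by multiplication with `i` -/
def ufr {n : ℕ} (e : Fin 4 → Fin n → ℝ) (a b c d s t : ℝ) : Fin 4 → Fin n → ℝ :=
  ![lc e a b c d, lc e (-b) a (-d) c,
    lc e (-(s * c + t * d)) (s * d - t * c) (s * a + t * b) (t * a - s * b),
    lc e (-(s * d - t * c)) (-(s * c + t * d)) (-(t * a - s * b)) (s * a + t * b)]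

/-- U2 (1 h, R4T, RP4 of Helper47/RFn or direct expansion).  Unitary invariance.  In complex notation `Z = e0 + i e1`, `W = e2 + i e3`; the
first vector of the new frame is `Re`-combination: `f0 + i f1 = (a - ib) Z + (c - id) W`, `f2 + i f3 = (s - it)(-(c + id) Z + (a + ib) W)`, the
matrix has determinant of modulus `1`, so `qf S (f0 + i f1) (f2 + i f3) = qf S Z W` for every curvature tensor. (Check the
signs by `Fin 4` computation: `f1 = J f0`, `f3 = J f2`, `f` orthonormal.) -/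
def G_U2 : Prop := ∀ (n : ℕ) (e : Fin 4 → Fin n → ℝ) (a b c d s t : ℝ), ON e → a ^ 2 + b ^ 2 + c ^ 2 + d ^ 2 = 1 →
  s ^ 2 + t ^ 2 = 1 → ON (ufr e a b c d s t) ∧ ∀ S : T4 n, IsCurv S →
    qf S (cv (ufr e a b c d s t 0) (ufr e a b c d s t 1)) (cv (ufr e a b c d s t 2) (ufr e a b c d s t 3)) =
      qf S (cv (e 0) (e 1)) (cv (e 2) (e 3))

/-- `4 K(y,z) - K(Jz,z)` -/
def Dj {n : ℕ} (S : T4 n) (z Jz y : Fin n → ℝ) : ℝ := 4 * K2 S y z - K2 S Jz z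

/-- DES (1 h, R4T).  The finite design (numerically verified).  `v = √(1/2)`; for `ε = 1, -1`: `z = v(e0 + ε e2)`, `Jz = v(e1 + ε e3)`,
`y = v(e2 - ε e0)`, `Jy = v(e3 - ε e1)`; and `z' = v(e0 + ε e3)`, `Jz' = v(e1 - ε e2)`, `y' = v(e3 - ε e0)`, `Jy' = v(-e2 - ε e1)`.  Expand all
`K2` by multilinearity; the terms with an odd number of some index cancel in the sum over `ε` … the rest is Bianchi:
`12 qf = 12 (K02+K03+K12+K13) - 24 R0123`. -/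
def G_DES : Prop := ∀ (n : ℕ) (e : Fin 4 → Fin n → ℝ) (S : T4 n) (v : ℝ), v ^ 2 = 1 / 2 → IsCurv S →
  12 * qf S (cv (e 0) (e 1)) (cv (e 2) (e 3)) =
    (3 / 2 * (Dj S (lc e v 0 v 0) (lc e 0 v 0 v) (lc e (-v) 0 v 0) + Dj S (lc e 0 v 0 v) (lc e v 0 v 0) (lc e 0 (-v) 0 v))
      + Dj S (lc e v 0 v 0) (lc e 0 v 0 v) (lc e 0 (-v) 0 v))
    + (3 / 2 * (Dj S (lc e v 0 (-v) 0) (lc e 0 v 0 (-v)) (lc e v 0 v 0) + Dj S (lc e 0 v 0 (-v)) (lc e v 0 (-v) 0) (lc e 0 v 0 v))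
      + Dj S (lc e v 0 (-v) 0) (lc e 0 v 0 (-v)) (lc e 0 v 0 v))
    + (3 / 2 * (Dj S (lc e v 0 0 v) (lc e 0 v (-v) 0) (lc e (-v) 0 0 v) + Dj S (lc e 0 v (-v) 0) (lc e v 0 0 v) (lc e 0 (-v) (-v) 0))
      + Dj S (lc e v 0 0 v) (lc e 0 v (-v) 0) (lc e 0 (-v) (-v) 0))
    + (3 / 2 * (Dj S (lc e v 0 0 (-v)) (lc e 0 v v 0) (lc e v 0 0 v) + Dj S (lc e 0 v v 0) (lc e v 0 0 (-v)) (lc e 0 v (-v) 0))
      + Dj S (lc e v 0 0 (-v)) (lc e 0 v v 0) (lc e 0 v (-v) 0))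

/-- NV1 (1.2 h, U2, DES, EQF, NW, R4T).  Null 4-spaces.  All terms `Dj R` in DES (for `S = R`) are `≥ 0` by `FG`, so all vanish: with the
frame `e` replaced by `ufr` (U2): `K(Jz,z) = 4 K(y,z)` for every unitary frame `(z,Jz,y,Jy)` of `V` (given such a frame `f`, apply
DES to the frame `e' ` with `z = v(e'0 + e'2)`, i.e. `e' 0 = v(f0 - f2)` …).  Holomorphic sectional curvature `H(z) = K(z,Jz)`:
`H(z) = 4K(z,y) = H(y)`; for `z_θ = cos θ e0 + sin θ e2`, `y_θ = -sin θ e0 + cos θ e2` the plane is the same, so `H(z_θ) = 4 K(e0,e2) = 4`; the same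
with `e2` replaced by `cos φ e2 + sin φ e3` (`H(Jz) = H(z)`, phases do not change `H`): `H = 4`, `K(z,y) = 1` for every unitary pair.  So `Ac R z
(Jz) y`.  Second claim: for `S = Q R` DES (with all `Dj (Q R) z Jz y = Dz R z Jz y ≥ 0` by EQF). -/
def G_NV1 : Prop := ∀ n : ℕ, 4 ≤ n → ∀ (R : T4 n) (e : Fin 4 → Fin n → ℝ), NV R e →
  Ac R (e 0) (e 1) (e 2) ∧ 0 ≤ qf (Q R) (cv (e 0) (e 1)) (cv (e 2) (e 3)) ∧
  (qf (Q R) (cv (e 0) (e 1)) (cv (e 2) (e 3)) = 0 → Dz R (e 0) (e 1) (e 2) = 0) ∧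
  ∀ (a b c d s t : ℝ), a ^ 2 + b ^ 2 + c ^ 2 + d ^ 2 = 1 → s ^ 2 + t ^ 2 = 1 → NV R (ufr e a b c d s t)

/-- SB (1.5 h, NV1, EQF, NW, SA1, FG2, U2).  Second strictness statement.  NW gives the frame `e`; `m = K(e0,e2) > 0`, scale to `m = 1` (`4 qf R z w =
qf Id4 z w * qf R ..`, so `NV`).  `qf (Q R) z w ≥ 0` by NV1; suppose it is `0`.  With NV1 for the frames `(e0,e1,e2,e3)` and `(e1,-e0,e3,-e2)`
(`ufr` with `a = 0, b = 1`, …): `Dz R e0 e1 e2 = 0`, `Dz R e1 (-e0) e3 = 0`.  Let `q ⊥ V` be a unit eigenvector of `R_e0` with eigenvalue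
`s ≠ 1` (`V = span e`; `e1, e2, e3` are eigenvectors of `R_e0`: values `4, 1, 1`).  EQF: `4 K(e2,q) = K(e1,q)`; all eigenvalues of
`R_e2` and `R_e1` are in `[1,4]` (`Ac` for them), so `K(e1,q) = 4` and `q` is an eigenvector of `R_e1` with value `4 ≠ 1`; EQF at
`(e1; -e0, e3)`: `4 K(e3,q) = K(e0,q) = s`, `K(e3,q) ≥ 1`: `s = 4`.  So `R_e0` has only the eigenvalues `4` and `1`; `X` = orthonormal basis
of the eigenspace for `4`, `k ≥ 1` (`e1`), `n - 1 - k ≥ 2` (`e2, e3`): `elk k R e0 X = 0`, contradiction. -/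
def G_SB : Prop := ∀ n : ℕ, 4 ≤ n → ∀ R : T4 n, FG R → 0 < lam R →
  (∀ (k : ℕ) v (X : Fin k → Fin n → ℝ), 1 ≤ k → k + 2 ≤ n → nrm v = 1 → Con X → 0 < elk k R v X) →
  ∀ z w, qf R z w = 0 → qf (Id4 n) z w ≠ 0 → 0 < qf (Q R) z w

/-! ## Odd dimension -/

/-- matrix of `R(z,·,x,·)` restricted to the complement `W` of `V`, `q` runs through all vectors orthogonal to `e` -/
def perp4 {n : ℕ} (e : Fin 4 → Fin n → ℝ) (q : Fin n → ℝ) : Prop := ∀ i, dot q (e i) = 0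

/-- OD1 (1.2 h, NV1, EQF, SB).  The spectrum on `W` and the relation of `W_4` and `W_1` (`e` as in NV, with vanishing reaction term).  `hN`: as in SB,
on `W` the form `R_z` has only the eigenvalues `1, 4` for `z = e0`.  Claims: `q ∈ W` eigenvector of `R_e0` with value `4`: `K(e2,q) = |q|²`,
`K(e1,q) = 4|q|²` and `q` is an eigenvector of `R_e2` (value 1), `R_e1` (value 4).  By symmetry `W_4(e1) ⊆ W_4(e0)`; so `R_e0 = R_e1` on `W`.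
Last claim: for a unit vector `z ∈ V` the plane `V ∩ z^⊥` is spanned by eigenvectors of `R_z` (`Jz`: 4; `y`, `Jy`: 1; NV1 for `ufr`), so
`R(z,v,z,p) = 0` for `z, v ∈ V`, `p ∈ W`; polarise: `T(z,v,z') = R(z,v,z',p)` is antisymmetric in `(z,z')` and in `(z,v)`, so the first Bianchi
identity gives `3T = 0`.  (For general `p` subtract its projection to `V`.) -/
def G_OD1 : Prop := ∀ n : ℕ, 4 ≤ n → ∀ (R : T4 n) (e : Fin 4 → Fin n → ℝ), NV R e →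
  qf (Q R) (cv (e 0) (e 1)) (cv (e 2) (e 3)) = 0 →
  (∀ q, perp4 e q → ∃ q1 q4, perp4 e q1 ∧ perp4 e q4 ∧ q = (fun i => q1 i + q4 i) ∧ Eg R (e 0) 1 q1 ∧ Eg R (e 0) 4 q4) ∧
  (∀ q, perp4 e q → Eg R (e 0) 4 q → Eg R (e 1) 4 q ∧ Eg R (e 2) 1 q ∧ Eg R (e 3) 1 q) ∧
  (∀ p q, perp4 e p → perp4 e q → R4 R (e 0) p (e 0) q = R4 R (e 1) p (e 1) q) ∧
  (∀ p a b c, R4 R (e a) (e b) (e c) p = R4 R (e a) (e b) (e c) (fun i => ∑ j, dot p (e j) * e j i))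

/-- OD2 (1.5 h, OD1, EQF, U2, NV1).  The form `M(p,q) = R(e0,p,e2,q)` on `W`.  `W = W_4(e0) ⊕ W_4(e2) ⊕ W_11` (orthogonal; `W_4(e0) ⊆ W_1(e2)` and
conversely, OD1 for the frame with `e0, e2` exchanged).  EQF at `(e0; e1, e2)`: `M(p,q) = 0` if `p, q ∈ W_1(e0)` or `p, q ∈ W_4(e0)`,
`M(p,q) = 2 M(q,p)` for `p ∈ W_4(e0), q ∈ W_1(e0)`.  EQF at `(e2; e3, e0)` (`M' = R(e2,p,e0,q) = M(q,p)`): `M(q,p) = 0` if `p, q ∈ W_1(e2)`,
`M(q,p) = 2 M(p,q)` for `p ∈ W_4(e2), q ∈ W_1(e2)`.  So `M(p,q) ≠ 0` only for `p ∈ W_4(e0)`, `q ∈ W_4(e2)` or conversely.  `u = (e0+e2)/√2` is the first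
vector of a unitary frame: on `W`, `R_u = (R_e0 + R_e2 + M + Mᵀ)/2` has only the eigenvalues `1, 4`; with `R_e0 = 1 + 3P0`, `R_e2 = 1 + 3P2`:
`P_u = (P0+P2)/2 + N + Nᵀ`, `N(p,q) = M(p,q)/4` for `p ∈ W_4(e0), q ∈ W_4(e2)` (`(1/6)(M + M/2)`), and `P_u² = P_u` gives `N Nᵀ = P0/4`, `Nᵀ N = P2/4`. -/
def G_OD2 : Prop := ∀ n : ℕ, 4 ≤ n → ∀ (R : T4 n) (e : Fin 4 → Fin n → ℝ), NV R e →
  qf (Q R) (cv (e 0) (e 1)) (cv (e 2) (e 3)) = 0 →
  (∀ p q, perp4 e p → perp4 e q → Eg R (e 0) 1 p → Eg R (e 2) 1 p → R4 R (e 0) p (e 2) q = 0 ∧ R4 R (e 0) q (e 2) p = 0) ∧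
  (∀ p q, perp4 e p → perp4 e q → Eg R (e 0) 4 p → Eg R (e 0) 4 q → R4 R (e 0) p (e 2) q = 0) ∧
  (∀ p q, perp4 e p → perp4 e q → Eg R (e 2) 4 p → Eg R (e 2) 4 q → R4 R (e 0) p (e 2) q = 0) ∧
  (∀ p q, perp4 e p → perp4 e q → Eg R (e 0) 4 p → Eg R (e 2) 4 q → R4 R (e 0) p (e 2) q = 2 * R4 R (e 0) q (e 2) p) ∧
  (∀ p p', perp4 e p → perp4 e p' → Eg R (e 0) 4 p → Eg R (e 0) 4 p' →
    (∑ i, R4 R (e 0) p (e 2) (sb i) * R4 R (e 0) p' (e 2) (sb i)) = 4 * dot p p') ∧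
  (∀ q q', perp4 e q → perp4 e q' → Eg R (e 2) 4 q → Eg R (e 2) 4 q' →
    (∑ i, R4 R (e 0) (sb i) (e 2) q * R4 R (e 0) (sb i) (e 2) q') = 4 * dot q q')

/-- OD3 (1 h, OD1, OD2, EQF).  `T(p,q) = R(e0,p,e1,q)` is antisymmetric on `W`, zero if one argument is in `W_4(e0)`, and `∑_i T(sb i, q)² = |q|²` for
`q ∈ W_1(e0)`: EQF at `(e0; e1, e2)` for `q = q4 + q11` (`q4 ∈ W_4(e2)`): `4 K(e2,q) - K(e1,q) = 4(1 + 3|q4|²) - 1` for `|q| = 1`, the second sum is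
`∑_i M(sb i, q)² = 4|q4|²` (OD2), so `3 + 12|q4|² = 3|Tq|² + 12|q4|²`.  (`K(e1,q) = |q|²` since `R_e1 = R_e0` on `W`.) -/
def G_OD3 : Prop := ∀ n : ℕ, 4 ≤ n → ∀ (R : T4 n) (e : Fin 4 → Fin n → ℝ), NV R e →
  qf (Q R) (cv (e 0) (e 1)) (cv (e 2) (e 3)) = 0 →
  (∀ p q, perp4 e p → perp4 e q → R4 R (e 0) p (e 1) q = - R4 R (e 0) q (e 1) p) ∧
  (∀ p q, perp4 e p → perp4 e q → Eg R (e 0) 4 q → R4 R (e 0) p (e 1) q = 0) ∧
  (∀ q q', perp4 e q → perp4 e q' → Eg R (e 0) 1 q → Eg R (e 0) 1 q' →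
    (∑ i, R4 R (e 0) (sb i) (e 1) q * R4 R (e 0) (sb i) (e 1) q') = dot q q')

/-- SBO (1.5 h, OD1, OD2, OD3, U2, NV1, NW, FG2).  Third strictness statement, `n` odd.  Suppose `qf (Q R) z w = 0`; NW, scale: `NV R e` with vanishing
reaction term.  On `W_4(e0)` put `X(p,p') = (1/4) ∑_i R(e0,p,e2,sb i) R(e0,p',e3,sb i)` (frame with `e2` replaced by `e3`: OD2 holds
also for it, and for `(e2+e3)/√2`; `R_e2 = R_e3` on `W`): polarising OD2 in `e2`: `X(p,p') + X(p',p) = 0`, and `∑ X(p,·)² = |p|²`: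
`X = 4 N^{e2} (N^{e3})ᵀ`, `N^{e3}ᵀ N^{e3} = P2/4`.  Let `Y` be the `n × n` matrix: `Y = X` on `W_4(e0)`, `Y = T` on `W_1(e0)`, `Y = J` on `V`, zero
between the pieces.  `Yᵀ = -Y`, `Yᵀ Y = 1`, so `1 = det(Yᵀ Y) > 0` and `det Y = det Yᵀ = (-1)^n det Y`: `n` even, contradiction.
Nonnegativity of `qf (Q R) z w` by NV1. -/
def G_SBO : Prop := ∀ n : ℕ, 4 ≤ n → Odd n → ∀ R : T4 n, FG R → 0 < lam R →
  ∀ z w, qf R z w = 0 → qf (Id4 n) z w ≠ 0 → 0 < qf (Q R) z w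

/-! ## Quantitative versions by compactness -/

/-- CPA (1.2 h, SA, FG2, FG1, LN).  Compactness.  The set of `(R, z, X)` with `FG R`, `lam R = 1`, `hh R ≥ ε²`, `nrm z = 1`, `Con X` is compact
(`|R_abcd| ≤ n`, closed conditions); on the closed subset `elk k R z X = 0` the continuous function `elk k (Q R) z X` is positive
(SA).  If the claim failed there would be a sequence with `elk k R_j z_j X_j ≤ 1/j` and `elk k (Q R_j) z_j X_j < 1/j`; pass to a limit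
(`elk ≥ 0`).  Scale. -/
def G_CPA : Prop := ∀ n : ℕ, 4 ≤ n → ∀ k : ℕ, 1 ≤ k → k + 2 ≤ n → ∀ ε > 0, ∃ c > 0, ∀ (R : T4 n) z (X : Fin k → Fin n → ℝ),
  FG R → 0 < lam R → ε ^ 2 * lam R ^ 2 ≤ hh R → nrm z = 1 → Con X → elk k R z X ≤ c * lam R →
    c * lam R ^ 2 ≤ elk k (Q R) z X

/-- CPB (1.2 h, SB, FG2, NW).  Compactness, as CPA.  Normalise: `qf` of orthonormal complex pairs (RP4 of Helper47/RFn: `qf S z w = qf Id4 z w *
qf S z' w'`).  The set of `R` with `FG R`, `lam R = 1`, `elk k R v X ≥ κ` for all `k`, unit `v`, `Con X` is compact. -/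
def G_CPB : Prop := ∀ n : ℕ, 4 ≤ n → ∀ κ > 0, ∃ c > 0, ∀ R : T4 n, FG R → 0 < lam R →
  (∀ (k : ℕ) v (X : Fin k → Fin n → ℝ), 1 ≤ k → k + 2 ≤ n → nrm v = 1 → Con X → κ * lam R ≤ elk k R v X) →
  ∀ z w, qf R z w ≤ c * lam R * qf (Id4 n) z w → c * lam R ^ 2 * qf (Id4 n) z w ≤ qf (Q R) z w

/-- CPO (0.8 h, SBO, FG2, NW).  Compactness, `n` odd, as CPB. -/
def G_CPO : Prop := ∀ n : ℕ, 4 ≤ n → Odd n → ∃ c > 0, ∀ R : T4 n, FG R → 0 < lam R →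
  ∀ z w, qf R z w ≤ c * lam R * qf (Id4 n) z w → c * lam R ^ 2 * qf (Id4 n) z w ≤ qf (Q R) z w

/-- GRW (1 h, NW, WI, WQ, SH, CB, FG2).  Growth of the minimum of the complex sectional curvature.  `S = R - g Id4`, `g ≥ 0`, is in
`C0` (hypothesis `hm`), `qf S z w = 0`, so `qf (Q S) z w ≥ 0` (WI); SH: `Q R = Q S + (2g) • wdg (Ric S) 1 + ((n-1) g²) • Id4`, and
`Ric S = Ric R - (n-1) g ≥ (λ/16 - (n-1) g)` and `Ric S ≥ 0` (CB).  If `g ≤ λ/(32(n-1))`: `2g qf (wdg (Ric S) 1) ≥ 2g (λ/32) q_I`; otherwise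
`(n-1) g² ≥ g λ/32`.  `c = 1/32`. -/
def G_GRW : Prop := ∀ n : ℕ, 4 ≤ n → ∀ (R : T4 n) (g : ℝ) z w, FG R → 0 ≤ g →
  (∀ z' w', g * qf (Id4 n) z' w' ≤ qf R z' w') → qf R z w = g * qf (Id4 n) z w →
    1 / 32 * lam R * g * qf (Id4 n) z w ≤ qf (Q R) z w

/-- FGS (1 h, FG1, FG2, NW, LI, LN, WQ, CB).  Start of the Boehm-Wilking chain.  `elli` is close to the identity for small `a, b`
(`aF b0 ≤ 2 b0`), `|Ric0 R| ≤ 2n²λ`.  First claim: `qf (elli R) ≥ (ε1 - C b0) λ q_I` and `Ric(elli R) - p lam(elli R) ≥ (1/16 - C b0) λ`; take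
`b0` small.  Second claim: `β ≥ ξ λ`, `R ∈ C0`: `elli (R + β I) = elli R + (β/N) I`, `N = 1 + 2(n-1)a`, `qf (elli R) ≥ -C b0 λ q_I`, take `b0` small
against `ξ`. -/
def G_FGS : Prop := ∀ n : ℕ, 4 ≤ n → ∀ ε1 > 0, ∀ ξ > 0, ∃ b0 > 0, b0 ≤ 1 / 2 ∧ ∀ R : T4 n, FG R →
  ((∀ z w, ε1 * lam R * qf (Id4 n) z w ≤ qf R z w) → Kc (aF n b0) b0 (pF n b0) R) ∧
  ∀ β, ξ * lam R ≤ β → Kc (aF n b0) b0 (pF n b0) (R + β • Id4 n)

end Pool.Agent.Helper47.FLG
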