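import Pool.Agent.Helper47.RFn.AsmN
import Pool.Agent.Helper1.FLG.CPO
import Pool.Agent.Helper12.FLG.CPA
import Pool.Agent.Helper12.FLG.FG2
import Pool.Agent.Helper12.FLG.OD1
import Pool.Agent.Helper19.FLG.OD2
import Pool.Agent.Helper2.FLG.SB
import Pool.Agent.Helper20.FLG.SA3
import Pool.Agent.Helper3.FLG.ROT
import Pool.Agent.Helper31.FLG.FG1
import Pool.Agent.Helper34.FLG.DES
import Pool.Agent.Helper37.FLG.GQ
import Pool.Agent.Helper38.FLG.OD3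
import Pool.Agent.Helper39.FLG.SBO
import Pool.Agent.Helper4.FLG.CPB
import Pool.Agent.Helper42.FLG.EQF
import Pool.Agent.Helper46.FLG.GRW
import Pool.Agent.Helper48.FLG.DID
import Pool.Agent.Helper49.FLG.U2
import Pool.Agent.Helper56.FLG.SA1
import Pool.Agent.Helper58.FLG.SCA
import Pool.Agent.Helper59.FLG.NV1
import Pool.Agent.Helper67.FLG.SV2
import Pool.Agent.Helper71.FLG.SA2
import Pool.Agent.Helper75.FLG.EQC
import Pool.Agent.Helper77.FLG.FGS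
import Pool.Agent.Helper8.FLG.DELF
import Pool.Agent.Helper87.FLG.PSI
import Pool.Agent.Helper88.FLG.FO
import Pool.Agent.Helper9.FLG.NW
import Pool.Agent.Helper90.FLG.R4T
import Pool.Agent.Helper95.FLG.SA

/-!
# Project FLG: assembly
-/

set_option autoImplicit false

namespace Pool.Agent.Helper47.FLG.Asm

open Pool.Agent.Helper47.RFn Pool.Agent.Helper47.RFn.Asm Pool.Agent.Helper47.FLG

theorem fR4T : G_R4T := Pool.Agent.Helper90.FLG.g_R4T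

theorem fROT : G_ROT := Pool.Agent.Helper47.FLG.g_ROT fR4T

theorem fFG1 : G_FG1 := Pool.Agent.Helper31.FLG.g_FG1 fR4T cCL

theorem fNW : G_NW := Pool.Agent.Helper47.FLG.g_NW fR4T fFG1 cNF

theorem fFG2 : G_FG2 := Pool.Agent.Helper12.FLG.g_FG2 fR4T fFG1 fNW cCB cLN

theorem fFO : G_FO := Pool.Agent.Helper88.FLG.g_FO fR4T

theorem fSV2 : G_SV2 := Pool.Agent.Helper47.FLG.g_SV2 fR4T fFO

theorem fGQ : G_GQ := Pool.Agent.Helper47.FLG.g_GQ fSV2 fFO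

theorem fDID : G_DID := Pool.Agent.Helper48.FLG.g_DID

theorem fSCA : G_SCA := Pool.Agent.Helper47.FLG.g_SCA

theorem fPSI : G_PSI := Pool.Agent.Helper47.FLG.g_PSI fFO fGQ fSCA

theorem fEQC : G_EQC := Pool.Agent.Helper47.FLG.g_EQC fFO fGQ fDID fPSI

theorem fEQF : G_EQF := Pool.Agent.Helper47.FLG.g_EQF fR4T fROT fEQC

theorem fDELF : G_DELF := Pool.Agent.Helper47.FLG.g_DELF fFG1 fFG2 fEQF cCL

theorem fSA1 : G_SA1 := Pool.Agent.Helper47.FLG.g_SA1 fFG2 cLN fR4T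

theorem fSA2 : G_SA2 := Pool.Agent.Helper47.FLG.g_SA2 fR4T cLN

theorem fSA3 : G_SA3 := Pool.Agent.Helper47.FLG.g_SA3 fEQF fR4T fSA2

theorem fSA : G_SA := Pool.Agent.Helper95.FLG.g_SA fSA1 fSA2 fSA3 fEQF cLN fR4T fFG1 cCL

theorem fU2 : G_U2 := Pool.Agent.Helper47.FLG.g_U2

theorem fDES : G_DES := Pool.Agent.Helper47.FLG.g_DES fR4T

theorem fNV1 : G_NV1 := Pool.Agent.Helper47.FLG.g_NV1 fU2 fDES fEQF fR4T cCL

theorem fSB : G_SB := Pool.Agent.Helper47.FLG.g_SB fR4T fFG1 fNV1 fEQF fNW fFG2 fU2 cCL cLN cQB cWQ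

theorem fOD1 : G_OD1 := Pool.Agent.Helper12.FLG.g_OD1 fR4T fNV1 fEQF fU2 cCL

theorem fOD2 : G_OD2 := Pool.Agent.Helper47.FLG.g_OD2 fOD1 fEQF fU2 fNV1 fR4T cCL

theorem fOD3 : G_OD3 := Pool.Agent.Helper38.FLG.g_OD3 fR4T cCL fNV1 fOD1 fOD2 fEQF

theorem fSBO : G_SBO := Pool.Agent.Helper47.FLG.g_SBO fOD1 fOD2 fOD3 fU2 fNV1 fNW fFG2 fFG1 fR4T cCL cLN cWQ

theorem fCPA : G_CPA := Pool.Agent.Helper12.FLG.g_CPA fSA fFG2

theorem fCPB : G_CPB := Pool.Agent.Helper47.FLG.g_CPB fSB fFG2 fNW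

theorem fCPO : G_CPO := Pool.Agent.Helper47.FLG.g_CPO fSBO fFG2 fNW fFG1 cCL cLN

theorem fGRW : G_GRW := Pool.Agent.Helper46.FLG.g_GRW cCL cLN cWI cWQ cSH cCB fFG2

theorem fFGS : G_FGS := Pool.Agent.Helper77.FLG.g_FGS fFG2 fNW cLI cLN cWQ cCL

end Pool.Agent.Helper47.FLG.Asm
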