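import Pool.Agent.Helper47.RFn.AsmN
import Pool.Agent.Helper47.FLG.AsmA
import Pool.Agent.Helper13.FLG.PF5
import Pool.Agent.Helper16.FLG.CUT
import Pool.Agent.Helper2.FLG.SFA
import Pool.Agent.Helper20.FLG.HRN
import Pool.Agent.Helper27.FLG.CHN
import Pool.Agent.Helper3.FLG.GRH
import Pool.Agent.Helper32.FLG.INVF
import Pool.Agent.Helper4.FLG.EVG
import Pool.Agent.Helper40.FLG.SFO
import Pool.Agent.Helper5.FLG.PF1
import Pool.Agent.Helper55.FLG.PF2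
import Pool.Agent.Helper56.FLG.PF3
import Pool.Agent.Helper58.FLG.SFB
import Pool.Agent.Helper61.FLG.NRF
import Pool.Agent.Helper61.FLG.ZET
import Pool.Agent.Helper65.FLG.DIC
import Pool.Agent.Helper79.FLG.PF4
import Pool.Agent.Helper8.FLG.HR1
import Pool.Agent.Helper81.FLG.DOM
import Pool.Agent.Helper90.FLG.STH
import Pool.Agent.Helper95.FLG.HSQ

/-!
# Project FLG: assembly
-/

set_option autoImplicit false

namespace Pool.Agent.Helper47.FLG.Asm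

open Pool.Agent.Helper47.RFn Pool.Agent.Helper47.RFn.Asm Pool.Agent.Helper47.FLG

theorem fEVG : G_EVG := Pool.Agent.Helper47.FLG.g_EVG cRP2 cRP3 cPRD cEVM cSH cLN cCL cRIC

theorem fDIC : G_DIC := Pool.Agent.Helper47.FLG.g_DIC fR4T cRP2 cRP3 cRP4

theorem fINVF : G_INVF := Pool.Agent.Helper47.FLG.g_INVF fEVG fDIC cMP3 cMP1 cBDD fDELF fFG1 fFG2 cRP1 cRP2 cRP3 cEVS cRIC cLN cCL

theorem fSFA : G_SFA := Pool.Agent.Helper47.FLG.g_SFA fEVG fDIC cMP3 fCPA fFG1 fFG2 fR4T cRP1 cRP2 cRP3 cLN cPRD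

theorem fSFB : G_SFB := Pool.Agent.Helper47.FLG.g_SFB fEVG fDIC cMP3 fSFA fCPB fNW fFG1 fFG2 cRP1 cRP2 cRP3 cRP4 cLN cCL cPRD cWQ

theorem fSFO : G_SFO := Pool.Agent.Helper47.FLG.g_SFO fEVG cMP3 fCPO fNW fFG1 fFG2 cRP1 cRP2 cRP3 cRP4 cLN cCL cPRD cQB cWQ

theorem fCHN : G_CHN := Pool.Agent.Helper47.FLG.g_CHN cSTP cCH cEN cRP1 cRP2 cRP3 cLN cRIC

theorem fNRF : G_NRF := Pool.Agent.Helper47.FLG.g_NRF fCHN fFGS fINVF cLI cLN fEVG cCL cWQ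

theorem fHSQ : G_HSQ := Pool.Agent.Helper47.FLG.g_HSQ cEVS cEVM cRIC cPRD cBIA fEVG fFG2 cRP1 cRP2

theorem fDOM : G_DOM := Pool.Agent.Helper47.FLG.g_DOM fHSQ cMP3 fEVG fGRW fNW fFG1 fFG2 cRP1 cRP2 cRP3 cRP4 cLN cRIC cPRD cNRB

theorem fZET : G_ZET := Pool.Agent.Helper47.FLG.g_ZET cEVS cPRD cVIN cBIA

theorem fGRH : G_GRH := Pool.Agent.Helper47.FLG.g_GRH cMP1 cEVS cBIA cPRD cVIN

theorem fHR1 : G_HR1 := Pool.Agent.Helper47.FLG.g_HR1 fDOM fZET cMP1 cPRD cWQ cBIA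

theorem fHRN : G_HRN := Pool.Agent.Helper47.FLG.g_HRN fHR1 fZET fGRH cMP1 cPRD cVIN cBIA cBDD cWQ cLN

theorem fSTH : G_STH := Pool.Agent.Helper90.FLG.g_STH cMP1 cBOC cPRD cVIN cBDD cBIA

theorem fCUT : G_CUT := Pool.Agent.Helper16.FLG.g_CUT cMP1 cBOC cPRD cVIN cBIA

theorem fPF1 : G_PF1 := Pool.Agent.Helper47.FLG.g_PF1

theorem fPF2 : G_PF2 := Pool.Agent.Helper55.FLG.g_PF2

theorem fPF3 : G_PF3 := Pool.Agent.Helper47.FLG.g_PF3 fPF1 fPF2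

theorem fPF4 : G_PF4 := Pool.Agent.Helper47.FLG.g_PF4 fPF1

theorem fPF5 : G_PF5 := Pool.Agent.Helper47.FLG.g_PF5 fPF2

end Pool.Agent.Helper47.FLG.Asm
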