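import Pool.Agent.Helper47.FLG.Fun
import Pool.Agent.Helper36.FLG.FnGoals
import Pool.Agent.Helper36.FLG.StatHeat

/-!
# Project FLG: the static heat statements in the form of `Fun.lean`
-/

set_option autoImplicit false

namespace Pool.Agent.Helper47.FLG

open Finset Pool.Agent.Helper47.RFn Pool.Agent.Helper73.RFn

theorem p_SHX (h : Pool.Agent.Helper36.FLG.StatHeatStmt) : ShxStmt :=
  fun n hn τ A θ hτ hF f hf => h n hn τ A θ hτ hF f hf

theorem p_SHC (hS : Pool.Agent.Helper36.FLG.SthF) (hC : Pool.Agent.Helper36.FLG.CutF) : ShcStmt := by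
  intro n T A θ hn hT hF hR
  refine ⟨fun u hu h0 t ht1 ht2 x hx => ?_, fun u w k c0 hk hu hw h0 h1 hc t ht1 ht2 hkt x hx => ?_⟩
  · exact hS n hn T A θ u hT hF (fun x hx v => hR x hx v) hu h0 t ht1 ht2 x hx
  · exact hC n hn T A θ u w hT hF (fun x hx v => hR x hx v) k c0 hk hu hw h0 h1
      (fun t h2 h3 h4 x hx h5 v => hc t h2 h3 h4 x hx h5 v) t ht1 ht2 hkt x hx

end Pool.Agent.Helper47.FLG
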