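import Pool.Agent.Helper47.FLG.AsmB
import Pool.Agent.Helper73.RFn.MainF
import Pool.Agent.Helper13.FLG.EVM2
import Pool.Agent.Helper15.FLG.VLT
import Pool.Agent.Helper19.FLG.STA
import Pool.Agent.Helper27.FLG.ODS
import Pool.Agent.Helper3.FLG.FRC
import Pool.Agent.Helper31.FLG.PFG
import Pool.Agent.Helper35.FLG.DCT
import Pool.Agent.Helper35.FLG.NIN
import Pool.Agent.Helper36.FLG.HzF
import Pool.Agent.Helper36.FLG.StatF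
import Pool.Agent.Helper38.FLG.ODM
import Pool.Agent.Helper4.FLG.DMS
import Pool.Agent.Helper40.FLG.FST
import Pool.Agent.Helper42.FLG.GDV
import Pool.Agent.Helper47.FLG.Conv
import Pool.Agent.Helper49.FLG.GDT
import Pool.Agent.Helper5.FLG.GBL
import Pool.Agent.Helper51.FLG.SOF
import Pool.Agent.Helper56.FLG.HRF
import Pool.Agent.Helper59.FLG.GIN
import Pool.Agent.Helper61.FLG.DIB
import Pool.Agent.Helper61.FLG.VMO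
import Pool.Agent.Helper77.FLG.BEF
import Pool.Agent.Helper8.FLG.GBV
import Pool.Agent.Helper83.FLG.PDL
import Pool.Agent.Helper87.FLG.FIV
import Pool.Agent.Helper9.FLG.ONF
import Pool.Agent.Helper90.FLG.CNF
import Pool.Agent.Helper94.FLG.MYS

/-!
# Project FLG: assembly of the function level
-/

set_option autoImplicit false

namespace Pool.Agent.Helper47.FLG.Asm

open Pool.Agent.Helper47.RFn Pool.Agent.Helper73.RFn Pool.Agent.Helper47.FLG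

theorem fSthF : Pool.Agent.Helper36.FLG.SthF := Pool.Agent.Helper36.FLG.sthF Pool.Agent.Helper73.RFn.AsmN.eMOD Pool.Agent.Helper73.RFn.AsmN.eEM Pool.Agent.Helper73.RFn.AsmN.eLNK Pool.Agent.Helper47.RFn.Asm.cE0 Pool.Agent.Helper73.RFn.AsmN.eYOM Pool.Agent.Helper47.RFn.Asm.cVIH Pool.Agent.Helper47.RFn.Asm.cC2 Pool.Agent.Helper47.RFn.Asm.cC8 Pool.Agent.Helper47.RFn.Asm.cC9 Pool.Agent.Helper73.RFn.AsmN.jsmS Pool.Agent.Helper73.RFn.AsmN.fhmS Pool.Agent.Helper47.FLG.Asm.fSTH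

theorem fCutF : Pool.Agent.Helper36.FLG.CutF := Pool.Agent.Helper36.FLG.cutF Pool.Agent.Helper73.RFn.AsmN.eMOD Pool.Agent.Helper73.RFn.AsmN.eEM Pool.Agent.Helper73.RFn.AsmN.eLNK Pool.Agent.Helper47.RFn.Asm.cE0 Pool.Agent.Helper73.RFn.AsmN.eYOM Pool.Agent.Helper47.RFn.Asm.cVIH Pool.Agent.Helper47.RFn.Asm.cC2 Pool.Agent.Helper47.RFn.Asm.cC8 Pool.Agent.Helper47.RFn.Asm.cC9 Pool.Agent.Helper73.RFn.AsmN.jsmS Pool.Agent.Helper73.RFn.AsmN.fhmS Pool.Agent.Helper47.FLG.Asm.fSTH Pool.Agent.Helper47.FLG.Asm.fCUT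

theorem fHrnF : Pool.Agent.Helper36.FLG.HrnF := Pool.Agent.Helper36.FLG.hrnF Pool.Agent.Helper73.RFn.AsmN.eMOD Pool.Agent.Helper73.RFn.AsmN.eEM Pool.Agent.Helper73.RFn.AsmN.eLNK Pool.Agent.Helper73.RFn.AsmN.eFLB Pool.Agent.Helper73.RFn.AsmN.eATO Pool.Agent.Helper47.RFn.Asm.cC8 Pool.Agent.Helper73.RFn.AsmN.fjsS Pool.Agent.Helper73.RFn.AsmN.hjsS Pool.Agent.Helper73.RFn.AsmN.fhmS Pool.Agent.Helper73.RFn.AsmN.eFRF Pool.Agent.Helper73.RFn.AsmN.jsrS Pool.Agent.Helper36.RN.heatEx Pool.Agent.Helper47.FLG.Asm.fHRN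

theorem fSHX : ShxStmt := Pool.Agent.Helper47.FLG.p_SHX Pool.Agent.Helper36.FLG.statHeat

theorem fSHC : ShcStmt := Pool.Agent.Helper47.FLG.p_SHC Pool.Agent.Helper47.FLG.Asm.fSthF Pool.Agent.Helper47.FLG.Asm.fCutF

theorem fNIN : G_NIN := Pool.Agent.Helper47.FLG.p_NIN Pool.Agent.Helper73.RFn.AsmN.eFLB Pool.Agent.Helper73.RFn.AsmN.eFRF Pool.Agent.Helper73.RFn.AsmN.fhmS

theorem fDCT : G_DCT := Pool.Agent.Helper47.FLG.p_DCT Pool.Agent.Helper73.RFn.AsmN.eFLB Pool.Agent.Helper73.RFn.AsmN.eFRF Pool.Agent.Helper73.RFn.AsmN.fhmS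

theorem fFIV : FivStmt := Pool.Agent.Helper47.FLG.p_FIV Pool.Agent.Helper73.RFn.AsmN.eMOD Pool.Agent.Helper73.RFn.AsmN.eFLB Pool.Agent.Helper73.RFn.AsmN.eNRO Pool.Agent.Helper47.FLG.Asm.fNIN Pool.Agent.Helper47.FLG.Asm.fDCT Pool.Agent.Helper47.FLG.Asm.fINVF Pool.Agent.Helper73.RFn.AsmN.fjsS Pool.Agent.Helper73.RFn.AsmN.fhmS

theorem fCNF : CnfStmt := Pool.Agent.Helper90.FLG.p_CNF Pool.Agent.Helper73.RFn.AsmN.eMOD Pool.Agent.Helper73.RFn.AsmN.eFLB Pool.Agent.Helper73.RFn.AsmN.eNRO Pool.Agent.Helper47.FLG.Asm.fNIN Pool.Agent.Helper47.FLG.Asm.fDCT Pool.Agent.Helper47.FLG.Asm.fINVF Pool.Agent.Helper47.FLG.Asm.fNRF Pool.Agent.Helper47.RFn.Asm.cP2 Pool.Agent.Helper47.RFn.Asm.cP3 Pool.Agent.Helper47.RFn.Asm.cS2 Pool.Agent.Helper47.RFn.Asm.cS3 Pool.Agent.Helper73.RFn.AsmN.fjsS Pool.Agent.Helper73.RFn.AsmN.fhmS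

theorem fSOF : SofStmt := Pool.Agent.Helper47.FLG.p_SOF Pool.Agent.Helper47.FLG.Asm.fSFB Pool.Agent.Helper47.FLG.Asm.fINVF Pool.Agent.Helper73.RFn.AsmN.eMOD Pool.Agent.Helper73.RFn.AsmN.eFLB Pool.Agent.Helper73.RFn.AsmN.eNRO Pool.Agent.Helper47.FLG.Asm.fNIN Pool.Agent.Helper47.FLG.Asm.fDCT Pool.Agent.Helper73.RFn.AsmN.fjsS

theorem fODS : OdsStmt := Pool.Agent.Helper47.FLG.p_ODS Pool.Agent.Helper47.FLG.Asm.fSFO Pool.Agent.Helper47.FLG.Asm.fINVF Pool.Agent.Helper73.RFn.AsmN.eMOD Pool.Agent.Helper73.RFn.AsmN.eFLB Pool.Agent.Helper73.RFn.AsmN.eNRO Pool.Agent.Helper47.FLG.Asm.fNIN Pool.Agent.Helper47.FLG.Asm.fDCT Pool.Agent.Helper73.RFn.AsmN.fjsS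

theorem fPFG : G_PFG := Pool.Agent.Helper47.FLG.p_PFG Pool.Agent.Helper47.FLG.Asm.fR4T Pool.Agent.Helper47.FLG.Asm.fFG1

theorem fPDL : G_PDL := Pool.Agent.Helper83.FLG.p_PDL Pool.Agent.Helper73.RFn.AsmN.choS Pool.Agent.Helper73.RFn.AsmN.eFRF

theorem fSTA : StaStmt := Pool.Agent.Helper47.FLG.p_STA Pool.Agent.Helper47.FLG.Asm.fPDL Pool.Agent.Helper47.FLG.Asm.fPFG Pool.Agent.Helper47.RFn.Asm.cRP2 Pool.Agent.Helper36.RN.locEx Pool.Agent.Helper73.RFn.AsmN.conS ⟨Pool.Agent.Helper73.RFn.AsmN.excS, Pool.Agent.Helper73.RFn.AsmN.exdS, Pool.Agent.Helper73.RFn.AsmN.gluS, Pool.Agent.Helper73.RFn.AsmN.maxS⟩ Pool.Agent.Helper73.RFn.AsmN.choS Pool.Agent.Helper73.RFn.AsmN.pinS Pool.Agent.Helper73.RFn.AsmN.fhmS Pool.Agent.Helper73.RFn.AsmN.horS Pool.Agent.Helper73.RFn.AsmN.posS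

theorem fMYS : MysStmt := Pool.Agent.Helper94.FLG.p_MYS Pool.Agent.Helper47.FLG.Asm.fSHX Pool.Agent.Helper47.FLG.Asm.fSHC Pool.Agent.Helper73.RFn.AsmN.smoS Pool.Agent.Helper73.RFn.AsmN.lipS Pool.Agent.Helper73.RFn.AsmN.dbdS Pool.Agent.Helper73.RFn.AsmN.fhmS Pool.Agent.Helper19.RFn.trc_m Pool.Agent.Helper19.RFn.int_m

theorem fHRF : HrfStmt := Pool.Agent.Helper47.FLG.p_HRF Pool.Agent.Helper47.FLG.Asm.fHrnF Pool.Agent.Helper47.FLG.Asm.fSOF Pool.Agent.Helper47.FLG.Asm.fFIV Pool.Agent.Helper19.RFn.shf_m Pool.Agent.Helper47.RFn.Asm.cWQ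

theorem fFRC : G_FRC := Pool.Agent.Helper47.FLG.p_FRC Pool.Agent.Helper47.FLG.Asm.fFG2 Pool.Agent.Helper47.RFn.Asm.cRP1 Pool.Agent.Helper47.RFn.Asm.cRP2 Pool.Agent.Helper47.RFn.Asm.cRP3 Pool.Agent.Helper73.RFn.AsmN.eFRF

theorem fDMS : DmsStmt := Pool.Agent.Helper4.FLG.p_DMS Pool.Agent.Helper47.FLG.Asm.fHRF Pool.Agent.Helper47.FLG.Asm.fMYS Pool.Agent.Helper47.FLG.Asm.fFIV Pool.Agent.Helper47.FLG.Asm.fFRC Pool.Agent.Helper73.RFn.AsmN.fhmS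

theorem fONF : OnfStmt := Pool.Agent.Helper47.FLG.p_ONF Pool.Agent.Helper47.FLG.Asm.fMYS Pool.Agent.Helper19.RFn.rlb_m Pool.Agent.Helper73.RFn.AsmN.lipS Pool.Agent.Helper73.RFn.AsmN.fhmS Pool.Agent.Helper73.RFn.AsmN.eFRF

theorem fBEF : BefStmt := Pool.Agent.Helper47.FLG.p_BEF Pool.Agent.Helper47.FLG.Asm.fONF Pool.Agent.Helper64.RFn.qct_d Pool.Agent.Helper73.RFn.AsmN.fhmS Pool.Agent.Helper73.RFn.AsmN.eFRF Pool.Agent.Helper47.RFn.Asm.cRP2 Pool.Agent.Helper47.RFn.Asm.cRP3 Pool.Agent.Helper47.RFn.Asm.cRP4 Pool.Agent.Helper47.RFn.Asm.cLN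

theorem fDIB : DibStmt := Pool.Agent.Helper47.FLG.p_DIB Pool.Agent.Helper36.RN.heatEx Pool.Agent.Helper73.RFn.AsmN.hecS Pool.Agent.Helper73.RFn.AsmN.lipS Pool.Agent.Helper73.RFn.AsmN.smoS Pool.Agent.Helper73.RFn.AsmN.fhmS Pool.Agent.Helper73.RFn.AsmN.dbdS

theorem fGDV : G_GDV := Pool.Agent.Helper47.FLG.p_GDV Pool.Agent.Helper47.RFn.Asm.cC1 Pool.Agent.Helper47.RFn.Asm.cC2 Pool.Agent.Helper47.RFn.Asm.cC4 Pool.Agent.Helper47.RFn.Asm.cC6 Pool.Agent.Helper73.RFn.AsmN.eFRF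

theorem fGDT : G_GDT := Pool.Agent.Helper47.FLG.p_GDT Pool.Agent.Helper47.FLG.Asm.fPF3 Pool.Agent.Helper47.FLG.Asm.fPF4 Pool.Agent.Helper73.RFn.AsmN.eMOD Pool.Agent.Helper73.RFn.AsmN.eFLB Pool.Agent.Helper73.RFn.AsmN.eATO Pool.Agent.Helper47.RFn.Asm.cRIC Pool.Agent.Helper73.RFn.AsmN.jsrS Pool.Agent.Helper73.RFn.AsmN.fjsS Pool.Agent.Helper73.RFn.AsmN.fhmS

theorem fGIN : G_GIN := Pool.Agent.Helper47.FLG.p_GIN Pool.Agent.Helper47.FLG.Asm.fGDT Pool.Agent.Helper47.FLG.Asm.fGDV Pool.Agent.Helper64.RFn.det2_d Pool.Agent.Helper73.RFn.AsmN.fhmS Pool.Agent.Helper47.RFn.Asm.cC2 Pool.Agent.Helper47.RFn.Asm.cC4 Pool.Agent.Helper47.RFn.Asm.cC6 Pool.Agent.Helper47.RFn.Asm.cC8 Pool.Agent.Helper47.RFn.Asm.cC9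

theorem fVLT : VltStmt := Pool.Agent.Helper15.FLG.p_VLT Pool.Agent.Helper64.RFn.ffgs_d Pool.Agent.Helper64.RFn.frc_d Pool.Agent.Helper64.RFn.veq_d Pool.Agent.Helper64.RFn.cmp_d (Pool.Agent.Helper64.RFn.dic_of_frf Pool.Agent.Helper73.RFn.AsmN.eFRF)

theorem fGBL : GblStmt := Pool.Agent.Helper47.FLG.p_GBL Pool.Agent.Helper47.FLG.Asm.fGIN Pool.Agent.Helper47.FLG.Asm.fVLT (Pool.Agent.Helper73.RFn.AsmN.lpS Pool.Agent.Helper36.RN.heatEx) Pool.Agent.Helper47.FLG.Asm.fPF5 Pool.Agent.Helper73.RFn.AsmN.fhmS Pool.Agent.Helper47.RFn.Asm.cC1 Pool.Agent.Helper47.RFn.Asm.cC4 Pool.Agent.Helper47.RFn.Asm.cC6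

theorem fGBV : GbvStmt := Pool.Agent.Helper47.FLG.p_GBV Pool.Agent.Helper47.FLG.Asm.fGBL Pool.Agent.Helper47.FLG.Asm.fPF5 Pool.Agent.Helper73.RFn.AsmN.fhmS Pool.Agent.Helper47.RFn.Asm.cC4 Pool.Agent.Helper47.RFn.Asm.cC6

theorem fVMO : VmoStmt := Pool.Agent.Helper47.FLG.p_VMO Pool.Agent.Helper64.RFn.det2_d Pool.Agent.Helper73.RFn.AsmN.fhmS Pool.Agent.Helper47.RFn.Asm.cC4 Pool.Agent.Helper47.RFn.Asm.cC6

theorem fFST : FstStmt := Pool.Agent.Helper47.FLG.p_FST Pool.Agent.Helper73.RFn.AsmN.fhmS Pool.Agent.Helper47.RFn.Asm.cRP2 Pool.Agent.Helper47.RFn.Asm.cRP4 Pool.Agent.Helper73.RFn.AsmN.eFRF Pool.Agent.Helper47.RFn.Asm.cWQ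

theorem fODM : OdmStmt := Pool.Agent.Helper38.FLG.p_ODM

theorem fEVM2 : EvmStmt := Pool.Agent.Helper47.FLG.p_EVM2 Pool.Agent.Helper47.RFn.Asm.cRP4

end Pool.Agent.Helper47.FLG.Asm
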