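import Pool.Agent.Helper47.FLG.Fun
import Pool.Agent.Helper47.SN.SN
import Pool.Agent.Helper47.T3.Goals

/-!
# Project FLG: the theorem for `RMetric n`, `n ≥ 3`, from the three cases
-/

set_option autoImplicit false

namespace Pool.Agent.Helper47.FLG

open Pool.Agent.Helper47.SN

theorem finSN (hO : OddMain) (hE : EvenMain) (h3 : Pool.Agent.Helper47.T3.Main3) (n : ℕ) (hn : 3 ≤ n) :
    ∃ ε : ℝ, 0 < ε ∧ ∀ M : RMetric n, (∀ x : SN.EE n, ‖x‖ = 1 → SN.PinchedAt (1 / 4) M.G x) →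
      ε * SN.gdiam M.G ^ n ≤ SN.gvol M.G := by
  rcases Nat.lt_or_ge 3 n with h4 | h4
  · have key : ∃ ε : ℝ, 0 < ε ∧ ∀ G : RFn.MF n, RFn.IsMetric G →
        (∀ x, ‖x‖ = 1 → RFn.PinchedAt (1 / 4) G x) → ε * RFn.gdiam G ^ n ≤ RFn.gvol G := by
      rcases Nat.even_or_odd n with h | h
      · exact hE n h4 h
      · exact hO n h4 h
    obtain ⟨ε, hε, h⟩ := key
    refine ⟨ε, hε, fun M hp => ?_⟩
    have h1 := h (gz M.G) (isMetric M) (pinched M (1 / 4) hp)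
    rw [gvol_eq, ← gdiam_eq, gdiam_congr (gz_eq M.G)] at h1
    exact h1
  · have hn3 : n = 3 := le_antisymm h4 hn
    subst hn3
    exact h3 (1 / 4) (by norm_num)

end Pool.Agent.Helper47.FLG
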