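import Pool.Agent.Helper47.FLG.AsmC
import Pool.Agent.Helper47.FLG.FinSN
import Pool.Agent.Helper47.T3.Asm

/-!
# Project FLG: the final theorem
-/

set_option autoImplicit false

namespace Pool.Agent.Helper47.FLG

open Pool.Agent.Helper47.FLG.Asm Pool.Agent.Helper73.RFn

theorem oddMain : OddMain :=
  fODM fSTA fODS fCNF fFIV (AsmN.lpS Pool.Agent.Helper36.RN.heatEx) AsmN.vlbS AsmN.diaS Pool.Agent.Helper36.RN.heatEx

theorem evenMain : EvenMain :=
  fEVM2 fSTA fCNF fFIV fDMS fBEF fDIB fGBV fVMO fFST fFRC AsmN.fhmS (AsmN.lpS Pool.Agent.Helper36.RN.heatEx)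
    AsmN.vlbS AsmN.diaS Pool.Agent.Helper36.RN.heatEx

open Pool.Agent.Helper47.SN in
/-- no collapse of pointwise strictly quarter pinched metrics on spheres -/
theorem allSpheres (n : ℕ) (hn : 3 ≤ n) :
    ∃ ε : ℝ, 0 < ε ∧ ∀ M : RMetric n, (∀ x : SN.EE n, ‖x‖ = 1 → SN.PinchedAt (1 / 4) M.G x) →
      ε * SN.gdiam M.G ^ n ≤ SN.gvol M.G :=
  finSN oddMain evenMain Pool.Agent.Helper47.T3.main3 n hn

end Pool.Agent.Helper47.FLG
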