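import Pool.Agent.Helper47.FLG.Pde
import Pool.Agent.Helper47.RFn.GoalsE
import Pool.Agent.Helper73.RFn.GoalsI
import Pool.Agent.Helper19.RFn.GoalsM
import Pool.Agent.Helper64.RFn.GoalsV

/-!
# Project FLG: the function level and the final theorem

Language of `Helper47/RFn/FlowN.lean`, `Helper73/RFn/GoodN.lean` (`Good`, `Blow`, `Last`, `OneStmt`, `LpStmt`, `VlbStmt`, `DiaStmt`),
`Helper73/RFn/GoalsG,H,I.lean` (`FhmStmt`, `LipStmt`, `SmoStmt`, `DbdStmt`, `HecStmt`, `FinStmt`, `ConPStmt`), `Helper19/RFn/GoalsM.lean` (`ShfStmt`,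
`TrcStmt`, `IntStmt`, `RlbStmt`), `Helper64/RFn/GoalsV.lean`.  All statements of these files (and `RFn.Goal_X`) are proved theorems and may be used
as hypotheses.  Notation of the docstrings: `λ = lamf`, `ν = nfc`, `r = pull ι (RT A θ x)`.
-/

namespace Pool.Agent.Helper47.FLG

open Finset Pool.Agent.Helper47.RFn Pool.Agent.Helper73.RFn

/-- curvature tensor in the frame at a point -/
noncomputable def RT {n : ℕ} (A θ : MF n) (x : EE n) : T4 (n + 1) := fun a b c d => Rf A θ a b c d x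

/-- `FG` at a point -/
def FGF {n : ℕ} (A θ : MF n) (x : EE n) : Prop := ∀ ι, Iso (fun a => nfc A a x) ι → FG (pull ι (RT A θ x))

/-- `q_r ≥ c λ q_I` at a point -/
def QPF {n : ℕ} (c : ℝ) (A θ : MF n) (x : EE n) : Prop := ∀ ι, Iso (fun a => nfc A a x) ι → ∀ z' w' : Fin n → ℂ,
  c * lamf A θ x * qf (Id4 n) z' w' ≤ qf (pull ι (RT A θ x)) z' w'

/-- an almost null pair -/
def NQF {n : ℕ} (c : ℝ) (A θ : MF n) (x : EE n) : Prop := ∃ ι, Iso (fun a => nfc A a x) ι ∧ ∃ z' w' : Fin n → ℂ,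
  qf (Id4 n) z' w' ≠ 0 ∧ qf (pull ι (RT A θ x)) z' w' ≤ c * lamf A θ x * qf (Id4 n) z' w'

/-- the initial condition -/
def Ini0 {n : ℕ} (l0 : ℝ) (A θ : MF n) : Prop := ∀ x, x ≠ 0 → l0 ≤ lamf A θ x ∧ FGF A θ x

/-- lower Ricci bound at a point -/
def RcF {n : ℕ} (k : ℝ) (A θ : MF n) (x : EE n) : Prop := ∀ v : Ix n → ℝ,
  k * (nrm v - dot v (fun a => nfc A a x) ^ 2) ≤ ∑ a, ∑ b, Rcf A θ a b x * v a * v b

/-! ## From the bundle to functions -/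

/-- NIN (1.5 h).  As the `IniT` claim of NRO (`RFn.Goal_NRO`, proof `Pool/Agent/Helper67/RFn/NRO.lean`), with `FG` instead of the pinching. -/
def G_NIN : Prop := ∀ (n : ℕ) (T : ℝ), 0 < T → ∀ M : Mod n T, M.Ax → ∀ A θ : ℝ → MF n,
  FFlow (Set.Ico 0 T) A θ → MJ T A → MJ T θ → ∀ l0 : ℝ, Ini0 l0 (A 0) (θ 0) → IniF (M.flB A θ) l0

/-- DCT (1 h).  Dictionary for restricted tensors.  By FLB `rv z t` is the tensor `RT` at `x = pt z` rotated by `fr z`, `nv z t` is the rotated `ν`.  If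
`Iso (nv z t) ι` then `ι' i a = ∑_j fr z j i * ι j a` is `Iso ν`, and `pull ι (rv z t) = pull ι' RT`; conversely.  Last claim: homogeneity (FHM). -/
def G_DCT : Prop := ∀ (n : ℕ) (T : ℝ), 0 < T → ∀ M : Mod n T, M.Ax → ∀ (I : Set ℝ) (A θ : ℝ → MF n),
  Set.Ioo 0 T ⊆ I → FFlow I A θ → MJ T A → MJ T θ →
  (∀ (z : M.Z) (t : TI T) (P : T4 n → Prop),
    ((∀ ι, Iso ((M.flB A θ).nv z t) ι → P (pull ι ((M.flB A θ).rv z t))) ↔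
      (∀ ι, Iso (fun a => nfc (A t) a (M.pt z)) ι → P (pull ι (RT (A t) (θ t) (M.pt z))))) ∧
    ((∃ ι, Iso ((M.flB A θ).nv z t) ι ∧ P (pull ι ((M.flB A θ).rv z t))) ↔
      (∃ ι, Iso (fun a => nfc (A t) a (M.pt z)) ι ∧ P (pull ι (RT (A t) (θ t) (M.pt z)))))) ∧
  (∀ t, 0 < t → t < T → ∀ x : EE n, x ≠ 0 → (∀ a, nfc (A t) a x = nfc (A t) a (‖x‖⁻¹ • x)) ∧
    RT (A t) (θ t) x = RT (A t) (θ t) (‖x‖⁻¹ • x) ∧ lamf (A t) (θ t) x = lamf (A t) (θ t) (‖x‖⁻¹ • x))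

/-- FIV (1.5 h; MOD, FLB, NRO, NIN, DCT, INVF, FJS, FHM).  INVF for `M.flB A θ` (as CON: `Helper73/RFn/GoalsI.lean`, `ConPStmt`, proof
`Pool/Agent/Helper68/RFn/CONP.lean`); at `t = 0` from the hypothesis, and `|Rf| ≤ C λ` at `t = 0` by continuity (or FG2). -/
def FivStmt : Prop := ∀ n : ℕ, 4 ≤ n → ∃ C : ℝ, 1 ≤ C ∧ ∀ (T l0 : ℝ) (A θ : ℝ → MF n), 0 < T → 0 < l0 →
  FFlow (Set.Ico 0 T) A θ → Ini0 l0 (A 0) (θ 0) → ∀ t, 0 ≤ t → t < T → ∀ x, x ≠ 0 →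
    l0 ≤ lamf (A t) (θ t) x ∧ FGF (A t) (θ t) x ∧ ∀ a b c d, |Rf (A t) (θ t) a b c d x| ≤ C * lamf (A t) (θ t) x

/-- CNF (1.5 h; as CON with INVF, NRF instead of NRD; MOD, FLB, NRO, NIN, DCT, P2, P3, S2, S3, FJS, FHM).  See `Helper73/RFn/GoalsI.lean`
(`ConPStmt`) and `Pool/Agent/Helper68/RFn/CONP.lean`.  Constants: `C_N` from INVF, `σ, ε` from P2, `A` from NRF for `ε1, A1, ε`, the rest as in CON. -/
def CnfStmt : Prop := ∀ n : ℕ, 4 ≤ n → ∀ ε1 > 0, ∀ A1 > 0, ∃ C σ : ℝ, 1 ≤ C ∧ 0 < σ ∧ σ ≤ 1 ∧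
  ∀ (T l0 : ℝ) (A θ : ℝ → MF n), 0 < T → 0 < l0 → FFlow (Set.Ico 0 T) A θ → Ini0 l0 (A 0) (θ 0) →
    (∀ t, 0 < t → t < T → ∀ x, x ≠ 0 → A1 ≤ t * lamf (A t) (θ t) x → QPF ε1 (A t) (θ t) x) → Good T l0 C σ A θ

/-- SOF (1 h; SFB, INVF, MOD, FLB, NRO, NIN, DCT, FJS, FHM).  Function level version of SFB. -/
def SofStmt : Prop := ∀ n : ℕ, 4 ≤ n → ∀ ε > 0, ∃ K > 0, ∀ (T l0 : ℝ) (A θ : ℝ → MF n), 0 < T → 0 < l0 →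
  FFlow (Set.Ico 0 T) A θ → Ini0 l0 (A 0) (θ 0) → ∀ t, 0 < t → t < T → ∀ x, x ≠ 0 →
    ∀ ι, Iso (fun a => nfc (A t) a x) ι → ∀ z' w' : Fin n → ℂ,
      Real.sqrt (hh (pull ι (RT (A t) (θ t) x))) * qf (Id4 n) z' w' ≤
        (ε * lamf (A t) (θ t) x + K / t) * qf (Id4 n) z' w' + K * qf (pull ι (RT (A t) (θ t) x)) z' w'

/-- ODS (1 h; SFO, INVF, MOD, FLB, NRO, NIN, DCT, FJS, FHM).  Function level version of SFO. -/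
def OdsStmt : Prop := ∀ n : ℕ, 4 ≤ n → Odd n → ∃ ε1 > 0, ∃ A1 > 0, ∀ (T l0 : ℝ) (A θ : ℝ → MF n), 0 < T → 0 < l0 →
  FFlow (Set.Ico 0 T) A θ → Ini0 l0 (A 0) (θ 0) → ∀ t, 0 < t → t < T → ∀ x, x ≠ 0 →
    A1 ≤ t * lamf (A t) (θ t) x → QPF ε1 (A t) (θ t) x

/-! ## The start -/

/-- PFG (0.5 h, FG1, R4T).  Weakly quarter pinched tensors are in `FG`. -/
def G_PFG : Prop := ∀ (n : ℕ) (δ : ℝ) (R : T4 n), 1 / 4 ≤ δ → IsCurv R → Pinch δ R → FG R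

/-- PDL (1.2 h).  Strict pinching of one metric improves.  The set of `(x,u,v,u',v')` with `|x| = 1`, `(u,v)`, `(u',v')` euclidean orthonormal
pairs orthogonal to `x` is compact (and nonempty for `n ≥ 2`), `sec (cyl G) x u v` is continuous on it (`IsMetric`: `ar > 0`) and depends only on the
plane (multilinearity and symmetries of `Rm (cyl G)`: these are in RAD0/CURn or `Helper73` PIN; or use that `curv` and `ar` are both multiplied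
by the square of the determinant, from the antisymmetries of `Rm` in the first and last two indices).  So `sec u v / sec u' v'` has a minimum `> 1/4`;
take `δ` between. -/
def G_PDL : Prop := ∀ (n : ℕ), 2 ≤ n → ∀ G : MF n, IsMetric G → (∀ x, ‖x‖ = 1 → PinchedAt (1 / 4) G x) →
  ∃ δ, 1 / 4 < δ ∧ ∀ x, ‖x‖ = 1 → PinchedAt δ G x

/-- STA (1.5 h; PDL, PFG, everything in `FinStmt`).  Start: the first part of the proof of FIN (`Pool/Agent/Helper38/RFn/FIN.lean`; docstring in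
`Helper73/RFn/GoalsH.lean`) for the `δ` of PDL (replaced by `min δ 1`): existence of the maximal flow, `Good` with constants depending on `δ`, `Blow`.
`Ini0` from `PinF δ` and PFG. -/
def StaStmt : Prop := ∀ (n : ℕ), 4 ≤ n → ∀ G : MF n, IsMetric G → (∀ x, ‖x‖ = 1 → PinchedAt (1 / 4) G x) →
  ∃ (T l0 C σ : ℝ) (A θ : ℝ → MF n), 0 < T ∧ 0 < l0 ∧ 1 ≤ C ∧ 0 < σ ∧ σ ≤ 1 ∧ FFlow (Set.Ico 0 T) A θ ∧
    (∀ x, x ≠ 0 → gOf (θ 0) x = G x) ∧ Ini0 l0 (A 0) (θ 0) ∧ Good T l0 C σ A θ ∧ Blow T A θ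

/-! ## The static heat equation and the local Myers theorem -/

/-- frame bundle data of a fixed metric -/
noncomputable def stB {n : ℕ} {T : ℝ} (M : Mod n T) (A θ : MF n) : FB n T :=
  M.toBA.toFB (M.emM (fun _ => A)) (M.emM (fun _ => θ)) (fun _ _ => 0)

/-- STB (1.2 h; EM, LNK, E0, FRA, PAIR, INSB, YOM, VIH, FRF, JSR, C1).  Dictionary for the static bundle, as FLB: `FH` with `S0 = 0` (`D A = 0`),
`Full` by YOM (which allows every `S0`), gradient, Laplacian and `Ric`; last claims as in NRO (`v` and its word derivatives are continuous up to `t = 0`). -/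
def G_STB : Prop := ∀ (n : ℕ) (T : ℝ), 0 < T → ∀ M : Mod n T, M.Ax → ∀ A θ : MF n, Frm A θ →
  (stB M A θ).Full ∧ (∀ i j, (stB M A θ).S i j = 0) ∧
  (∀ (z : M.Z) (t : TI T) (k : ℝ), RcGe (stB M A θ) z t k ↔ RcF k A θ (M.pt z)) ∧
  (∀ v w : ℝ → EE n → ℝ, Pool.Agent.Helper47.RFn.JS T v → Pool.Agent.Helper47.RFn.JS T w → (stB M A θ).VI (M.em v) ∧
    ∀ (z : M.Z) (t : TI T), (stB M A θ).ev z t (M.em v) = v t (M.pt z) ∧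
      (stB M A θ).ev z t ((stB M A θ).gg (M.em v) (M.em w)) = ggf A (v t) (w t) (M.pt z) ∧
      (stB M A θ).ev z t ((stB M A θ).Lap (M.em v)) = Lapf A θ (v t) (M.pt z)) ∧
  (∀ v v' : ℝ → EE n → ℝ, Pool.Agent.Helper47.RFn.JS T v → (∀ t x, 0 < t → t < T → x ≠ 0 → HasDerivAt (fun r => v r x) (v' t x) t) →
    ∀ z (t : TI T), (stB M A θ).ev z t ((stB M A θ).D (M.em v)) = v' t (M.pt z)) ∧
  (∀ v : ℝ → EE n → ℝ, Pool.Agent.Helper47.RFn.JS T v → SmFam (Set.Ico 0 T) v →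
    (stB M A θ).Bd0 ((stB M A θ).Lap (M.em v)) ∧
    (∀ c : ℝ, (∀ x, x ≠ 0 → ggf A (v 0) (v 0) x ≤ c) → (stB M A θ).Ini (-(stB M A θ).gg (M.em v) (M.em v)) (-c)))

/-- heat equation for a fixed metric -/
def HeatS {n : ℕ} (I : Set ℝ) (A θ : MF n) (u : ℝ → EE n → ℝ) : Prop := SmFam1 I u (fun t => Lapf A θ (u t))

/-- SHX (1 h, helper58/helper36).  Existence for the static heat equation: as `Pool.Agent.Helper58.RN.hex` with coefficients which do not depend on `t`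
(`lin`, `dic`, `sfc`, `cv`, `cda` of `Helper36/RN`). -/
def ShxStmt : Prop := ∀ n : ℕ, 2 ≤ n → ∀ (τ : ℝ) (A θ : MF n), 0 < τ → Frm A θ → ∀ f : EE n → ℝ, Sm f →
  ∃ u : ℝ → EE n → ℝ, HeatS (Set.Icc 0 τ) A θ u ∧ ∀ x, x ≠ 0 → u 0 x = f x

/-- SJS (0.6 h; JSM, C1, C2, C8, C9).  Static heat solutions are jointly smooth, as HJS. -/
def SjsStmt : Prop := ∀ (n : ℕ) (T : ℝ) (A θ : MF n) (u : ℝ → EE n → ℝ), 0 < T → Frm A θ →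
  HeatS (Set.Ico 0 T) A θ u → Pool.Agent.Helper73.RFn.JS T u

/-- SHC (1.2 h; STB, STH, CUT, SJS, MOD).  Estimates for static heat solutions at the function level.  First part: STH for `M.em u`.  Second part: CUT for
`M.em u`, `M.em w`. -/
def ShcStmt : Prop := ∀ (n : ℕ) (T : ℝ) (A θ : MF n), 2 ≤ n → 0 < T → Frm A θ → (∀ x, x ≠ 0 → RcF 0 A θ x) →
  (∀ u : ℝ → EE n → ℝ, HeatS (Set.Ico 0 T) A θ u → (∀ x, x ≠ 0 → ggf A (u 0) (u 0) x ≤ 1) →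
    ∀ t, 0 < t → t < T → ∀ x, x ≠ 0 → ggf A (u t) (u t) x ≤ 1 ∧ t * Lapf A θ (u t) x ^ 2 ≤ n + 1) ∧
  (∀ (u w : ℝ → EE n → ℝ) (k c0 : ℝ), 0 < k → HeatS (Set.Ico 0 T) A θ u → HeatS (Set.Ico 0 T) A θ w →
    (∀ x, x ≠ 0 → ggf A (u 0) (u 0) x ≤ 1) → (∀ x, x ≠ 0 → ggf A (w 0) (w 0) x ≤ 1) →
    (∀ t, 0 < t → t < T → k * t ≤ 1 → ∀ x, x ≠ 0 → w t x ≤ c0 → RcF k A θ x) →
    ∀ t, 0 < t → t < T → k * t ≤ 1 → ∀ x, x ≠ 0 →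
      ggf A (u t) (u t) x ≤ Real.exp (-(2 * k * t)) + Real.exp (Real.sqrt k * (w t x - c0) + k * t))

/-- MYS (2 h; SHX, SHC, TRC, INT, LIP, SMO, DBD, FHM, C1).  Local Myers theorem (compare `OnbPStmt` of helper19).  `κ = 2 √(n+1)`, `L = 10 κ + 5`,
`t1 = 1/k`, `T = 2/k`.  Static heat flows `u` of `f`, `w` of `h` (`|∇f|, |∇h| ≤ 1`): `|u(t) - f| ≤ κ √t`, `|w(t) - h| ≤ κ √t` (SHC, INT with `B = √(n+1)`).
`c0 = (L - κ)/√k`: if `w(x,t) ≤ c0`, `k t ≤ 1`, then `h x ≤ L/√k`, so `Ric ≥ k` at `x`.  SHC at `t1`: `|∇u|² ≤ e⁻² + exp(√k (w - c0) + 1)`, and where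
`h < R1 := (L - 2κ - 4)/√k`: `√k (w - c0) + 1 ≤ (L - 2κ - 4) + κ - (L - κ) + 1 = -3`: `|∇u|² ≤ e⁻² + e⁻³ ≤ 1/4`.
(A) Let `R = R1/2` and suppose `S = {h ≥ R}` contains a unit vector; `p1 = p/|p|`; `dS` = infimum of `gdist p1` over unit vectors of `S`; LIP for `h`: `dS ≥ R`.
SMO: `f` with `|∇f| ≤ 1`, `|f - gdist p1| ≤ ε`.  `w' = 2 u(t1)`: `|∇w'| ≤ 1` on `{h < R1}`, `w' ≥ 2(dS - ε - κ/√k)` on `S`, `w' p1 ≤ 2(ε + κ/√k)`; TRC: for `y ∈ S`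
`2(dS - ε - κ/√k) - 2(ε + κ/√k) ≤ gdist p1 y`; infimum: `dS ≤ 4κ/√k + 4ε`, so `R ≤ dS ≤ 4κ/√k`: contradiction (`L - 2κ - 4 > 8κ`).
(B) So `h < R < R1` everywhere, `|∇u(t1)| ≤ 1/2` everywhere for every `f`; SMO at `x`: `gdist x y ≤ f y - f x + 2ε ≤ u y - u x + 2κ/√k + 2ε ≤ (1/2) gdist x y +
2κ/√k + 2ε`. -/
def MysStmt : Prop := ∀ n : ℕ, 2 ≤ n → ∃ L > 0, ∀ (A θ : MF n), Frm A θ → (∀ x, x ≠ 0 → RcF 0 A θ x) →
  ∀ (k : ℝ) (h : EE n → ℝ) (p : EE n), 0 < k → Sm h → (∀ x, x ≠ 0 → ggf A h h x ≤ 1) → p ≠ 0 → h p ≤ 0 →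
  (∀ x, x ≠ 0 → h x ≤ L / Real.sqrt k → RcF k A θ x) →
  ∀ x y : EE n, ‖x‖ = 1 → ‖y‖ = 1 → gdist (gOf θ) x y ≤ L / Real.sqrt k

/-! ## The Harnack inequality and the diameter at the first bad time -/

/-- HRF (2 h; SOF, FIV, HRN, DCT, ShfStmt, HeatExStmt, MOD, EM, LNK, FLB, ATO, NRO, FJS, HJS, FHM, C1, C8).  Function level Harnack inequality.
`λ* = λ(y,s)`, `τ = 1/λ*`, `s0 = s - τ ≥ s/2` (`A1 ≥ 2`), `b = 1/s0 ≤ 2λ*/A1`.  `η` from HRN for `l`; `ε = η/4`, `K` from SOF, `c = η/(4K)`,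
`A1 ≥ 2, 8K/η, 4K/√(ε η)`: then `ε λ* + K b + K²b²τ/ε + K c λ* ≤ η λ*`.  Shift the flow by `s0` (ShfStmt): a flow on `[0,T-s0)`, `τ < T - s0`; choose `T'`
with `τ < T' < T - s0`.  SOF gives `SfC F ε K b` for `F = M.flB` of the shifted flow on `(0,T')` (DCT), FIV gives `FGa F`, `λ ≥ l0`.  HeatEx on `[0,T']`: heat
solutions `u, zz` with initial values `ζ(0) = 1/(1/λ(·,s0) + 2τ)` and `ζ(0)²` (`Sm`: C1); `ze = M.em ζ(t)`; `Hz F τ ze (em u) (em zz)`: equations as in HEC,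
initial conditions from NRO (last claims for the families `u - ζ` etc.).  HRN at `y' ∈ Z` with `pt y' = y/|y|`, `fr y' = one`: `hb`; `h x = at1 hb τ x` (`Sm`; ATO),
`F_a h = at1 (H_a hb)` since `V hb = 0`, so `ggf h h x = gg hb hb` at the frame `one`. -/
def HrfStmt : Prop := ∀ n : ℕ, 4 ≤ n → ∀ l > 0, ∃ c > 0, ∃ A1 : ℝ, 2 ≤ A1 ∧ ∀ (T l0 : ℝ) (A θ : ℝ → MF n), 0 < T → 0 < l0 →
  FFlow (Set.Ico 0 T) A θ → Ini0 l0 (A 0) (θ 0) → ∀ (s : ℝ) (y : EE n), 0 < s → s < T → y ≠ 0 →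
  A1 ≤ s * lamf (A s) (θ s) y → NQF c (A s) (θ s) y →
  ∃ h : EE n → ℝ, Sm h ∧ (∀ x, x ≠ 0 → ggf (A s) h h x ≤ 1) ∧ h y ≤ 0 ∧
    ∀ x, x ≠ 0 → h x ≤ l / Real.sqrt (lamf (A s) (θ s) y) → lamf (A s) (θ s) y / 10 ≤ lamf (A s) (θ s) x

/-- FRC (0.6 h; FG2, RP1, RP2, RP3, FHM, FRF).  `FG` and Ricci.  `rq (Ric r) v' ≥ (λ/16) |v'|²` (FG2), `v' = pullr ι v`, `|v'|² = |v|² - (ν·v)²`. -/
def G_FRC : Prop := ∀ n : ℕ, 4 ≤ n → ∀ (A θ : MF n), Frm A θ → ∀ x, x ≠ 0 → FGF A θ x →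
  0 ≤ lamf A θ x ∧ RcF (lamf A θ x / 16) A θ x ∧ RcF 0 A θ x

/-- DMS (1 h; HRF, MYS, FIV, FRC, FHM).  `L` from MYS, `l = L √160`, HRF: where `h x ≤ L/√k = l/√λ*`, `k = λ*/160`: `λ ≥ λ*/10`, so `Ric ≥ λ/16 ≥ k` (FRC).
MYS: `gdist ≤ L/√k = l/√λ* ≤ l √(s/A1)`. -/
def DmsStmt : Prop := ∀ n : ℕ, 4 ≤ n → ∃ c > 0, ∃ A1 : ℝ, 2 ≤ A1 ∧ ∃ C : ℝ, 1 ≤ C ∧ ∀ (T l0 : ℝ) (A θ : ℝ → MF n), 0 < T → 0 < l0 →
  FFlow (Set.Ico 0 T) A θ → Ini0 l0 (A 0) (θ 0) → ∀ (s : ℝ) (y : EE n), 0 < s → s < T → y ≠ 0 →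
  A1 ≤ s * lamf (A s) (θ s) y → NQF c (A s) (θ s) y →
  ∀ x x' : EE n, ‖x‖ = 1 → ‖x'‖ = 1 → gdist (gOf (θ s)) x x' ≤ C * Real.sqrt s

/-! ## Before the first bad time -/

/-- ONF (1.5 h; MYS, RlbStmt, LIP, FHM).  One time of a good flow with `Ric ≥ 0`, by the static theorem.  `y = tQ`, `η = √C y^(-σ/2)`: `p3` (if `C ≤ tQ`) gives
`|∇λ|² ≤ η² Q³`, `|Ef| ≤ √e2f ≤ η Q`.  `h = (Q - λ)/(η Q^(3/2))`: `|∇h| ≤ 1`, `h p = 0`.  `k = Q/2`: where `h ≤ L/√k`: `λ ≥ Q - √2 L η Q`, and RLB: `Ric ≥ λ - (n+1)² η Q ≥ Q/2`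
if `η` is small (`C'` large).  MYS: `gdist ≤ √2 L/√Q`; LIP for `h`: `h x ≤ gdist p x ≤ √2 L/√Q`, `λ ≥ (1 - √2 L η) Q`. -/
def OnfStmt : Prop := ∀ (n : ℕ) (C σ : ℝ), 4 ≤ n → 1 ≤ C → 0 < σ → σ ≤ 1 → ∃ C' : ℝ, 1 ≤ C' ∧
  ∀ (T l0 : ℝ) (A θ : ℝ → MF n), 0 < T → 0 < l0 → FFlow (Set.Ico 0 T) A θ → Good T l0 C σ A θ →
    (∀ t, 0 < t → t < T → ∀ x, x ≠ 0 → RcF 0 (A t) (θ t) x) →
    ∀ t Q, 0 < t → t < T → (∀ x, x ≠ 0 → lamf (A t) (θ t) x ≤ Q) → (∃ p, p ≠ 0 ∧ lamf (A t) (θ t) p = Q) → C' ≤ t * Q →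
      ∀ x, x ≠ 0 → (1 - C' * (t * Q) ^ (-(σ / 2))) * Q ≤ lamf (A t) (θ t) x
        ∧ ∀ a b c d, |Ef (A t) (θ t) a b c d x| ≤ C' * (t * Q) ^ (-(σ / 2)) * Q

/-- BEF (1.8 h; ONF, QCTn, FHM, RP1, RP2, RP3, RP4, LN).  `Good` before `s`, almost null pair at `s`.  `C'` from ONF; choose `A2` such that for `y ≥ A2/4`: `C' ≤ y`,
`C' y^(-σ/2) ≤ μ` with a small `μ = μ(n) ≤ 1/2`.  Suppose `t1 λ(x1,t1) > A2` for some `0 < t1 ≤ s`; by continuity we may take `t1 < s`.  `Q1` = maximum of `λ` at `t1`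
(attained), `t1 Q1 > A2`; ONF: `λ ≥ Q1/2` at `t1`; `s2`: `λ ≥ Q1/2` on `[t1,s)`, so `t Q(t) ≥ A2/2` there, and ONF at `t`: `|Ef| ≤ μ Q(t) ≤ 2μ λ`.  `t → s` (continuity):
`|Ef| ≤ 2μ λ` at `(y,s)`, `λ(y,s) > 0`.  `r = (λ/(n-1)) Id4 + E'`, `|E'_abcd| ≤ C_n μ λ` (RP3), so `q_r ≥ (λ/(n-1) - C_n' μ λ) q_I > (λ/(4n)) q_I` (RP4): contradiction to
`NQF`. -/
def BefStmt : Prop := ∀ (n : ℕ) (C σ : ℝ), 4 ≤ n → 1 ≤ C → 0 < σ → σ ≤ 1 → ∃ A2 : ℝ, 1 ≤ A2 ∧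
  ∀ (T s l0 : ℝ) (A θ : ℝ → MF n), 0 < s → s < T → 0 < l0 → FFlow (Set.Ico 0 T) A θ → Good s l0 C σ A θ →
    (∀ t, 0 ≤ t → t < T → ∀ x, x ≠ 0 → l0 ≤ lamf (A t) (θ t) x ∧ RcF 0 (A t) (θ t) x) →
    (∃ y, y ≠ 0 ∧ NQF (1 / (4 * (n : ℝ))) (A s) (θ s) y) →
    ∀ t, 0 < t → t ≤ s → ∀ x, x ≠ 0 → t * lamf (A t) (θ t) x ≤ A2

/-- DIB (0.8 h; HeatExStmt, HEC, LIP, SMO, FHM, DBD).  The proof of DIA (`Pool/Agent/Helper79/RFn/DIA.lean`) uses only these hypotheses. -/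
def DibStmt : Prop := ∀ (n : ℕ) (C : ℝ), 4 ≤ n → 1 ≤ C → ∃ C' : ℝ, 0 < C' ∧
  ∀ (T l0 s : ℝ) (A θ : ℝ → MF n), 0 < l0 → 0 < s → s < T → FFlow (Set.Ico 0 T) A θ →
    (∀ t, 0 < t → t ≤ s → ∀ x, x ≠ 0 → l0 ≤ lamf (A t) (θ t) x ∧
      (∀ a b c d, |Rf (A t) (θ t) a b c d x| ≤ C * lamf (A t) (θ t) x) ∧ t * lamf (A t) (θ t) x ≤ C) →
    (∀ x y : EE n, ‖x‖ = 1 → ‖y‖ = 1 → gdist (gOf (θ s)) x y ≤ C * Real.sqrt s) →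
    gdiam (gOf (θ 0)) ≤ C' * Real.sqrt s

/-! ## Gauss-Bonnet -/

/-- the Pfaffian at a point -/
noncomputable def pff {m : ℕ} (A θ : MF (2 * m)) (x : EE (2 * m)) : ℝ := pft (RT A θ x) (fun a => nfc A a x)

/-- GDV (1.5 h; C1, C2, C4, FRF, DETn2 or `Matrix.det` calculus).  Divergence theorem.  `W_i = ∑_a w_a A_ai`, `D = √det (gOf θ) = |det θ|`.  Claim:
`D (∑_a F_a w_a - ∑_ac Γ_aac w_c) = ∑_i (ed i (D W_i) - n nn_i D W_i)`; then C4.  Proof of the claim: `ed i D = D ∑_bj A_bj ed i θ_jb = -D ∑_bj (ed i A_bj) θ_jb` (Jacobi),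
so it remains `-∑_a Γ_aac = ∑_i ed i A_ci - ∑_bj (F_c A_bj) θ_jb - n ν_c`.  `Γ_abc = ½(C_abc - C_bca + C_cab)` gives `∑_a Γ_aac = ∑_a C_caa`, and
`C_caa = ∑_j (F_c A_aj - F_a A_cj) θ_ja + ν_c - ν_a δ_ca`, `∑_aj (F_a A_cj) θ_ja = ∑_i ed i A_ci` (`∑_a A_ai θ_ja = δ_ij`). -/
def G_GDV : Prop := ∀ (n : ℕ), 1 ≤ n → ∀ (A θ : MF n), Frm A θ → ∀ w : Ix n → EE n → ℝ, (∀ a, Sm (w a)) →
  integ (fun x => (∑ a, Fdc A a (w a) x - ∑ a, ∑ c, Gamc A θ a a c x * w c x) * Real.sqrt (gOf θ x).det) = 0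

/-- GDT (1.5 h; PF3, PF4, MOD, EM, LNK, FLB, ATO, FJS, FHM).  Time derivative of the Pfaffian.  `F = M.flB A θ`, `w_a = at1 (pw F a)` at the time `t`; `at1 (pf F) = pff`
(ATO: `at1` is multiplicative, `at1 R = Rf`, `at1 nu = ν`).  PF3 with `S = Ric`: `D (pf F) = (∑ Ric_aa) pf F + ∑ H_x (pw F x)`.  ATO multiplied by `A`:
`F_a (at1 f) = at1 (H_a f) - ½ ∑_cd Γ_acd at1 (V_cd f)`, and PF4: `V_cd pw_a = δ_da pw_c - δ_ca pw_d`, so `∑_a at1 (H_a pw_a) = ∑_a F_a w_a - ∑_ac Γ_aac w_c`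
(`Γ_acd = -Γ_adc`).  The hypothesis of PF4 on `S = Ric`: RIC. -/
def G_GDT : Prop := ∀ (m : ℕ), 1 ≤ m → ∀ (T : ℝ) (A θ : ℝ → MF (2 * m)), 0 < T → FFlow (Set.Ico 0 T) A θ →
  ∀ t, 0 < t → t < T → ∃ w : Ix (2 * m) → EE (2 * m) → ℝ, (∀ a, Sm (w a)) ∧ ∀ x, x ≠ 0 →
    HasDerivAt (fun r => pff (A r) (θ r) x) ((∑ a, Rcf (A t) (θ t) a a x) * pff (A t) (θ t) x
      + ∑ a, Fdc (A t) a (w a) x - ∑ a, ∑ c, Gamc (A t) (θ t) a a c x * w c x) t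

/-- GIN (1.5 h; GDT, GDV, DETn2, FHM, C4, C6, C8).  The integral of the Pfaffian is constant on `(0,T)`.  `φ(t,x) = pff √det` is a smooth family, `∂_t φ = (div w) √det` by
GDT and DETn2 (`∑ Rcf_aa = n λ`): its derivative is continuous in `(t,x)` (it is also a polynomial in smooth families: `∂_t φ` is the derivative of a `JS`
family), bounded on `[t1,t2] × Sⁿ`, so `d/dt integ φ(t) = integ (∂_t φ) = 0` (GDV; `hasDerivAt_integral_of_dominated_loc_of_deriv_le`). -/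
def G_GIN : Prop := ∀ (m : ℕ), 1 ≤ m → ∀ (T : ℝ) (A θ : ℝ → MF (2 * m)), 0 < T → FFlow (Set.Ico 0 T) A θ →
  ∀ t t', 0 < t → t < T → 0 < t' → t' < T →
    integ (fun x => pff (A t) (θ t) x * Real.sqrt (gOf (θ t) x).det) = integ (fun x => pff (A t') (θ t') x * Real.sqrt (gOf (θ t') x).det)

/-- VLT (1 h, helper60).  Lower volume bound near `T`: this is part of the proof of VLBn (`Pool/Agent/Helper60/RFn/VLBn.lean`; docstring in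
`Helper64/RFn/GoalsV.lean`): `√s ^ n * K_n ≤ gvol G(t)`, `s = 2(n-1)(T-t)`, for `t` close to `T`. -/
def VltStmt : Prop := ∀ (n : ℕ) (C σ : ℝ), 4 ≤ n → 1 ≤ C → 0 < σ → σ ≤ 1 →
  ∀ (T τ : ℝ) (A θ : ℝ → MF n), FFlow (Set.Ico 0 T) A θ → Last T C σ τ A θ → ∃ t1, τ ≤ t1 ∧ t1 < T ∧ ∀ t, t1 ≤ t → t < T →
    Real.sqrt (2 * ((n : ℝ) - 1) * (T - t)) ^ n * (((n : ℝ) + 1) * (MeasureTheory.volume (Metric.ball (0 : EE n) 1)).toReal / 4)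
      ≤ gvol (gOf (θ t))

/-- GBL (1.5 h; GIN, VLT, LP, PF5, FHM, FRF, C4, C6).  Lower bound of the integral.  `Last` from `LpStmt` (constants depending on the flow).  As `t → T`:
`(T-t)|Ef| → 0`, `(T-t) λ → 1/2` uniformly, so `|Rf - κ I| ≤ e` with `κ = λ/(n-1)`, `e ≤ μ κ` for `t` near `T`, and PF5 (3): `pff ≥ κ^m ≥ (1/(4(n-1)(T-t)))^m` (`m ≥ 2`, `2^m (2m)! ≥ 2`, `μ` small).
With VLT (`√(2(n-1)(T-t))^n = (2(n-1)(T-t))^m`): `integ ≥ (1/2)^m K_n =: c`.  `I_abcd = P_ac P_bd - P_ad P_bc = wdg (Pm ν) (Pm ν)`. -/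
def GblStmt : Prop := ∀ (m : ℕ), 2 ≤ m → ∃ c > 0, ∀ (T l0 C σ : ℝ) (A θ : ℝ → MF (2 * m)), 0 < T → 0 < l0 → 1 ≤ C → 0 < σ → σ ≤ 1 →
  FFlow (Set.Ico 0 T) A θ → Good T l0 C σ A θ → Blow T A θ → ∀ t, 0 < t → t < T →
    c ≤ integ (fun x => pff (A t) (θ t) x * Real.sqrt (gOf (θ t) x).det)

/-- GBV (0.8 h; GBL, PF5, FHM, C4, C6, VMO-type monotonicity of DETn2).  `|pff| ≤ C Λ^m` (PF5 (1)), so `c ≤ C Λ^m gvol(g(t))`. -/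
def GbvStmt : Prop := ∀ (m : ℕ), 2 ≤ m → ∃ c > 0, ∀ (T l0 C σ : ℝ) (A θ : ℝ → MF (2 * m)), 0 < T → 0 < l0 → 1 ≤ C → 0 < σ → σ ≤ 1 →
  FFlow (Set.Ico 0 T) A θ → Good T l0 C σ A θ → Blow T A θ → ∀ t, 0 < t → t < T → ∀ Λ : ℝ, 0 < Λ →
    (∀ x, x ≠ 0 → ∀ a b c d, |Rf (A t) (θ t) a b c d x| ≤ Λ) → c ≤ Λ ^ m * gvol (gOf (θ t))

/-- VMO (0.6 h; DETn2, FHM, C4, C6).  The volume is nonincreasing (`λ ≥ 0`); part of VLBn. -/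
def VmoStmt : Prop := ∀ (n : ℕ) (T : ℝ) (A θ : ℝ → MF n), 1 ≤ n → FFlow (Set.Ico 0 T) A θ →
  (∀ t, 0 ≤ t → t < T → ∀ x, x ≠ 0 → 0 ≤ lamf (A t) (θ t) x) → ∀ t, 0 ≤ t → t < T → gvol (gOf (θ t)) ≤ gvol (gOf (θ 0))

/-! ## The final theorem -/

/-- FST (1.2 h; FHM, RP4, C8).  The first bad time.  `B = {t ∈ (0,T) : ∃ unit x, A1 ≤ t λ ∧ NQF c}`.  For small `t` `t λ < A1` (`λ` is bounded on `[0,T/2]`), so `inf B > 0`.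
`B` is relatively closed: `t_j → t`, unit `x_j → x`, `ι_j` (compact), pairs normalised to be orthonormal (RP4); `RT`, `nfc`, `λ` continuous in `(t,x)`.  `s = inf B ∈ B`; for `t < s`:
`¬ NQF c` means `q_r > c λ q_I` for all pairs with `q_I ≠ 0`, and `q_r = 0` if `q_I = 0` (RP4): `QPF c`. -/
def FstStmt : Prop := ∀ (n : ℕ), 2 ≤ n → ∀ (T l0 c A1 : ℝ) (A θ : ℝ → MF n), 0 < T → 0 < l0 → 0 < c → 0 < A1 → FFlow (Set.Ico 0 T) A θ →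
  (∀ t, 0 ≤ t → t < T → ∀ x, x ≠ 0 → l0 ≤ lamf (A t) (θ t) x) →
  (∀ t, 0 < t → t < T → ∀ x, x ≠ 0 → A1 ≤ t * lamf (A t) (θ t) x → QPF c (A t) (θ t) x) ∨
  ∃ s, 0 < s ∧ s < T ∧ (∃ y, y ≠ 0 ∧ A1 ≤ s * lamf (A s) (θ s) y ∧ NQF c (A s) (θ s) y) ∧
    ∀ t, 0 < t → t < s → ∀ x, x ≠ 0 → A1 ≤ t * lamf (A t) (θ t) x → QPF c (A t) (θ t) x

/-- the theorem in odd dimensions -/
def OddMain : Prop := ∀ n : ℕ, 4 ≤ n → Odd n → ∃ ε : ℝ, 0 < ε ∧ ∀ G : MF n, IsMetric G →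
  (∀ x, ‖x‖ = 1 → PinchedAt (1 / 4) G x) → ε * gdiam G ^ n ≤ gvol G

/-- the theorem in even dimensions -/
def EvenMain : Prop := ∀ n : ℕ, 4 ≤ n → Even n → ∃ ε : ℝ, 0 < ε ∧ ∀ G : MF n, IsMetric G →
  (∀ x, ‖x‖ = 1 → PinchedAt (1 / 4) G x) → ε * gdiam G ^ n ≤ gvol G

/-- ODM (1 h).  Odd dimensions.  ODS, CNF (constants depend on `n` only), then `LpStmt`, `VlbStmt`, `DiaStmt` exactly as at the end of FIN
(`Helper38/RFn/FIN.lean`), `A, θ` from STA (`gdiam`, `gvol` only see `x ≠ 0`: `gdiam_congr`, `gvol_congr` there). -/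
def OdmStmt : Prop := StaStmt → OdsStmt → CnfStmt → FivStmt → LpStmt → VlbStmt → DiaStmt → HeatExStmt → OddMain

/-- EVM2 (1.5 h).  Even dimensions, `n = 2m`.  `c1, A1, C1` from DMS; `c = min c1 (1/(4n))` (`NQF` is monotone in `c`, as `λ ≥ 0`); `C, σ` from CNF for `(c, A1)`; `A2` from BEF; `C_R` from FIV.
For `G`: STA.  FST: in the first case `Good T l0 C σ` (CNF) and `LpStmt, VlbStmt, DiaStmt` as in ODM.  In the second case: `Good s l0 C σ` (CNF on `[0,s)`), BEF (FIV, FRC for `Ric ≥ 0`): `t λ ≤ A2` on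
`(0,s]`; DMS: `gdist (g(s)) ≤ C1 √s`; DIB (constant `max C1 A2 C_R`): `gdiam (g(0)) ≤ C' √s`; GBV at `s`, `Λ = C_R A2/s`, with the `Good T l0 C' σ'` and `Blow` of STA: `c' ≤ (C_R A2/s)^m gvol(g(s))`; VMO:
`gvol (g(0)) ≥ gvol(g(s)) ≥ c' (s/(C_R A2))^m ≥ ε gdiam^n` (`√s ^ (2m) = s^m`). -/
def EvmStmt : Prop := StaStmt → CnfStmt → FivStmt → DmsStmt → BefStmt → DibStmt → GbvStmt → VmoStmt → FstStmt → G_FRC → FhmStmt →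
  LpStmt → VlbStmt → DiaStmt → HeatExStmt → EvenMain

end Pool.Agent.Helper47.FLG
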