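import Pool.Agent.Helper47.FLG.Alg2
import Pool.Agent.Helper47.RFn.GoalsB

/-!
# Project FLG: the frame bundle level (maximum principle)

Conventions of `Helper47/RFn/Str.lean`, `GoalsA.lean`, `GoalsB.lean`; goals of `RFn` (`RFn.Goal_X`) are proved theorems and may be
used as hypotheses.  In docstrings `r = pull ι (rv z t)`, `λ = lam`, `q_R = qf R`, `q_I = qf Id4`, `h = Ric0`, `|h|² = hh`, `σ = |h|²/n`,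
`ev z t` is omitted.
-/

namespace Pool.Agent.Helper47.FLG

open Finset Pool.Agent.Helper47.RFn

/-- the curvature tensor is close, near time `0`, to `FG` tensors with `λ ≥ l0` -/
def IniF {n : ℕ} {T : ℝ} (F : FB n T) (l0 : ℝ) : Prop :=
  ∀ ε > 0, ∃ t0 > 0, t0 < T ∧ ∀ (z : F.Z) (t : TI T), (t : ℝ) < t0 → ∃ T0 : T4 (n + 1),
    Hor (F.nv z t) T0 ∧ (∀ ι, Iso (F.nv z t) ι → FG (pull ι T0) ∧ l0 ≤ lam (pull ι T0)) ∧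
    ∀ a b c d, |F.rv z t a b c d - T0 a b c d| ≤ ε

/-- the curvature tensor is in `FG` everywhere -/
def FGa {n : ℕ} {T : ℝ} (F : FB n T) : Prop := ∀ z t ι, Iso (F.nv z t) ι → FG (pull ι (F.rv z t))

/-- `|h|²` -/
noncomputable def hB {n : ℕ} {T : ℝ} (F : FB n T) : F.B := ∑ a, ∑ b, F.Ric0 a b ^ 2

/-- `R + bet I` -/
def Sg {n : ℕ} {T : ℝ} (F : FB n T) (bet : F.B) (i j k l : Ix n) : F.B := F.R i j k l + bet * F.I i j k l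

/-- `|h| ≤ ε λ + K (elk + 1/t)` -/
def SfA {n : ℕ} {T : ℝ} (F : FB n T) (k : ℕ) (ε K : ℝ) : Prop := ∀ z (t : TI T) ι, Iso (F.nv z t) ι →
  ∀ v (X : Fin k → Fin n → ℝ), nrm v = 1 → Con X →
    Real.sqrt (hh (pull ι (F.rv z t))) ≤ ε * F.ev z t F.lam + K * (elk k (pull ι (F.rv z t)) v X + 1 / t)

/-- `|h| ≤ ε λ + K (g + 1/t)`, `g = min q_R/q_I` -/
def SfB {n : ℕ} {T : ℝ} (F : FB n T) (ε K : ℝ) : Prop := ∀ z (t : TI T) ι, Iso (F.nv z t) ι → ∀ z' w' : Fin n → ℂ,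
  Real.sqrt (hh (pull ι (F.rv z t))) * qf (Id4 n) z' w' ≤
    (ε * F.ev z t F.lam + K / t) * qf (Id4 n) z' w' + K * qf (pull ι (F.rv z t)) z' w'

/-- the same with a constant `b` instead of `1/t` -/
def SfC {n : ℕ} {T : ℝ} (F : FB n T) (ε K b : ℝ) : Prop := ∀ z (t : TI T) ι, Iso (F.nv z t) ι → ∀ z' w' : Fin n → ℂ,
  Real.sqrt (hh (pull ι (F.rv z t))) * qf (Id4 n) z' w' ≤
    (ε * F.ev z t F.lam + K * b) * qf (Id4 n) z' w' + K * qf (pull ι (F.rv z t)) z' w'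

/-- positive complex sectional curvature where `t λ ≥ A` -/
def QP {n : ℕ} {T : ℝ} (F : FB n T) (ε A : ℝ) : Prop := ∀ z (t : TI T) ι, Iso (F.nv z t) ι →
  A ≤ t * F.ev z t F.lam → ∀ z' w' : Fin n → ℂ, ε * F.ev z t F.lam * qf (Id4 n) z' w' ≤ qf (pull ι (F.rv z t)) z' w'

/-! ## Dictionary -/

/-- EVG (1 h, RP2, RP3, PRD, EVM, SH, LN, CL).  As EVK of `RFn` with `a = b = 0` and a general function `bet`.  `s = r + β Id4`; `R` and `I`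
evaluate to `rv` and `wdg (Pm ν) (Pm ν)`; `Hop (R + bet I) = 2 QR + (D bet) I` (`H bet = 0`, PRD), and SH for `s - β Id4`:
`Q r = Q s - 2β wdg (Ric s) 1 + (n-1) β² Id4`.  Last claims: RP2, and the definition of `Ric0`, `hh` (`∑_ij (M_ij)² = ∑_ab (pull2 ι M)_ab²` for
`M = Ric0`, which kills `ν`). -/
def G_EVG : Prop := ∀ (n : ℕ), 2 ≤ n → ∀ (T : ℝ) (F : FB n T), F.Full → F.IsRF → ∀ bet : F.B, (∀ a, F.H a bet = 0) →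
  ∀ z t ι, Iso (F.nv z t) ι →
    pull ι (fun i j k l => F.ev z t (Sg F bet i j k l)) = pull ι (F.rv z t) + F.ev z t bet • Id4 n ∧
    Hor (F.nv z t) (fun i j k l => F.ev z t (Sg F bet i j k l)) ∧
    Hor (F.nv z t) (fun i j k l => F.ev z t (F.Hop (Sg F bet i j k l))) ∧
    (∀ s, s = pull ι (F.rv z t) + F.ev z t bet • Id4 n →
      pull ι (fun i j k l => F.ev z t (F.Hop (Sg F bet i j k l))) =
        (2 : ℝ) • Q s - (4 * F.ev z t bet) • wdg (Ric s) 1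
          + (2 * ((n : ℝ) - 1) * F.ev z t bet ^ 2 + F.ev z t (F.D bet)) • Id4 n) ∧
    F.ev z t F.lam = lam (pull ι (F.rv z t)) ∧ F.ev z t (hB F) = hh (pull ι (F.rv z t)) ∧
    IsCurv (pull ι (F.rv z t))

/-- DIC (1.2 h, R4T, RP2, RP3, RP4).  Dictionary for test vectors.  `S_ijkl = (pull ι S)_abcd ι_ia ι_jb ι_kc ι_ld` (RP2), so contraction with
`u, v, …` gives the contraction of `pull ι S` with `pullr ι u, …`.  `Con`: `∑ c_i (pullr ι (X i)) = pullr ι (∑ c_i X_i)` and `pullr` does not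
increase the norm; `ι` is isometric.  Last: `q = q_I` normalised. -/
def G_DIC : Prop := ∀ (n : ℕ), 2 ≤ n → ∀ (ν : Ix n → ℝ) (ι : Ix n → Fin n → ℝ) (S : T4 (n + 1)), Iso ν ι → Hor ν S →
  (∀ u v w x : Ix n → ℝ, R4 S u v w x = R4 (pull ι S) (pullr ι u) (pullr ι v) (pullr ι w) (pullr ι x)) ∧
  (∀ u v : Ix n → ℝ, K2 S u v = K2 (pull ι S) (pullr ι u) (pullr ι v)) ∧
  (∀ u v : Ix n → ℝ, dot (pullr ι u) (pullr ι v) = dot u v - dot ν u * dot ν v) ∧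
  (∀ (k : ℕ) (X : Fin k → Ix n → ℝ), Con X → Con (fun i => pullr ι (X i))) ∧
  (∀ (k : ℕ) (X : Fin k → Fin n → ℝ), Con X → Con (fun i j => ∑ a, ι j a * X i a)) ∧
  (∀ (k : ℕ) (v : Ix n → ℝ) (X : Fin k → Ix n → ℝ),
    4 * k * rq (Ric S) v - ((n : ℝ) - 1 + 3 * k) * (∑ i, K2 S v (X i)) = elk k (pull ι S) (pullr ι v) (fun i => pullr ι (X i))) ∧
  (∀ M : M2 (n + 1), (∑ a, ∑ b, M a b * (Ric S a b - lam (pull ι S) * Pm ν a b)) =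
    ∑ a, ∑ b, pull2 ι M a b * Ric0 (pull ι S) a b) ∧
  (∀ M : M2 (n + 1), (∑ a, ∑ b, pull2 ι M a b ^ 2) ≤ ∑ a, ∑ b, M a b ^ 2) ∧
  (∀ M : M2 n, pull2 ι (fun i j => ∑ a, ∑ b, ι i a * ι j b * M a b) = M ∧
    (∑ i, ∑ j, (∑ a, ∑ b, ι i a * ι j b * M a b) ^ 2) = ∑ a, ∑ b, M a b ^ 2) ∧
  (∀ z w : Fin n → ℂ, (∑ i, Complex.normSq (∑ a, (ι i a : ℂ) * z a)) = ∑ a, Complex.normSq (z a) ∧
    (∑ i, (∑ a, (ι i a : ℂ) * z a) * star (∑ a, (ι i a : ℂ) * w a)) = ∑ a, z a * star (w a))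

/-! ## Invariance and the soft estimates -/

/-- INVF (2 h, EVG, DIC, MP3, MP1, BDD, DELF, FG1, FG2, RP1, RP2, RP3, EVS, RIC, LN).  `FG` is preserved.  `λ ≥ l0` as in PRS of `RFn`: near `0`
by `IniF`, MP1 for `λ - l0` (`Hop λ ≥ 0`).  Fix `T1 < T`, let `|R| ≤ M` on `(0,T1]` (BDD).  For `ε ∈ (0,1)` let `bet = ε exp(C0 t)` (`comp`, `chain`
from `tt`; `D bet = C0 bet`).  MP3 for the family over the compact set of `(ζ,x,y) ∈ (ℝ^{n+1})³`, `|ζ| = |x| = |y| = 1`: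
`f = 4 K_S(y,ζ) w(x,ζ) - K_S(x,ζ) w(y,ζ) + (1 - w(x,ζ) w(y,ζ))`, `S = Sg bet`, `w(x,ζ) = ∑ I_abcd x_a ζ_b x_c ζ_d`, i.e. by DIC
`f = fl s ζ' x' y' + (1 - w w)`, `s = r + β Id4`, `ζ' = pullr ι ζ` …, `w = wd x' ζ' ∈ [0,1]`.
Near `0`: `fl s = fl r + 3 β w w`, `fl r ≥ -C ε' w w` (`r` is `ε'`-close to `FG`, FG1 last claim), so `f > 0`.  Touching point
(`f = 0`, all `f ≥ 0`): every nondegenerate flag of `ℝⁿ` is a multiple of one with `w w = 1` (FG1), which is a pull back, so `fl s ≥ 0`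
for all flags: `FG s`; then `f = 0` gives `w w = 1`, `fl s ζ' x' y' = 0`.  `Hop f = fl (Hop S)` (`I` is constant; `1 - w w` is constant)
`= 2 fl (Q s) - 4β fl (wdg (Ric s) 1) + 3 (2(n-1)β² + C0 β) > 0`: DELF, and `|wdg (Ric s) 1| ≤ C_n (M + β)`, `β ≤ exp(C0 T1) ε`: take
`ε ≤ exp(-C0 T1)`, `C0 = C_n (M + 1)`.  So `FG s` on `(0,T1]`; `ε → 0`.  `Cone`: FG2 `|r| ≤ n λ` and RP2 (2). -/
def G_INVF : Prop := ∀ (n : ℕ), 4 ≤ n → ∃ C > 0, ∀ (T : ℝ) (F : FB n T), F.Full → F.IsRF →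
  (∀ i j k l, F.Bd0 (F.R i j k l)) → ∀ l0 > 0, IniF F l0 → F.Cone C l0 ∧ FGa F

/-- SFA (2 h, EVG, DIC, MP3, CPA, FG1, FG2, RP1, RP2, RP3, LN, CL).  First soft estimate.  `bet = 1/tt` (`comp`), `D bet = -bet²`.  For a tensor `S`
and a matrix `M` let `m(S) = ∑ M_ab Ric0 S_ab - ε lam S`, `|M| ≤ 1`.  MP3 for the family over the compact set of `(v,X,M)`, `|v| = 1`, `Con X`,
`∑ M_ab² ≤ 1`, in dimension `n+1`: `f = K [4k Ric_S(v,v) - (n-1+3k) ∑ K_S(v,X_i)] - m_S P(v,v) + (1 - P(v,v))`, `S = Sg bet`, i.e. (DIC)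
`f = K elk k s v' X' - m(s) |v'|² + (1 - |v'|²)`, `s = r + β Id4`, `M' = pull2 ι M`, `|M'| ≤ 1`.  `L = K elk(·)(v',X') - m`,
`elk k (Id4) v' X' ≥ 3k ≥ 3` for `|v'| = 1`, `Con X'`; `elk k r ≥ 0` (FG2).
Near `0`: `β → ∞`, `R` bounded: `f > 0`.  Touching point: by homogeneity in `v'` (all `f ≥ 0`) `|v'| = 1` and `K elk k s v' X' = m(s)`.
Let `λ_s = lam s > 0`; `|m(T)| ≤ C` times `max |T|`.  Constants `c` from CPA for `ε`, `c2 = c/(16 C)`.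
(i) `β ≤ c2 λ_s`: `elk k s v' X' = m(s)/K ≤ C λ_s/K ≤ c λ_s`, `m(s) ≥ 0` gives `√(hh s) ≥ ε λ_s` (Cauchy-Schwarz), so CPA: `elk k (Q s) ≥ c λ_s²`,
`L(Q s) ≥ (K c - C) λ_s² ≥ (K c/2) λ_s²`, and `Hop f = 2 L(Q s) - 4β L(wdg (Ric s) 1) + (2(n-1)-1) β² L(Id4) ≥ K c λ_s² - 4 C K β λ_s > 0`.
(ii) `β > c2 λ_s`: `L(s) ≥ 3 K β - C λ_s > 0`, not `0`.  So `f ≥ 0`: choose `M' = h/|h|`: `√(hh r) ≤ ε (λ + (n-1)/t) + K elk k r v X + K 4n²/t`; enlarge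
`K` (`elk ≥ 0`). -/
def G_SFA : Prop := ∀ (n : ℕ), 4 ≤ n → ∀ k : ℕ, 1 ≤ k → k + 2 ≤ n → ∀ ε > 0, ∃ K > 0, ∀ (T : ℝ) (F : FB n T), F.Full → F.IsRF →
  (∀ i j k l, F.Bd0 (F.R i j k l)) → (∀ z t, 0 < F.ev z t F.lam) → FGa F → SfA F k ε K

/-- SFB (2 h, EVG, DIC, MP3, SFA, CPB, NW, FG1, FG2, RP1, RP2, RP3, RP4, LN, CL).  Second soft estimate.  As SFA, with the family
`f = K q_S(z,w) - m_S q_I(z,w) + (1 - q_I(z,w))` over orthonormal complex pairs `(z,w)` in `ℂ^{n+1}` (as in INV of `RFn`) and `M`, `∑ M_ab² ≤ 1`: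
`f = K q_s(z',w') - m(s) q_I(z',w') + (1 - q_I(z',w'))`.  `K_A` = maximum of the constants of SFA for `ε/2` and all `1 ≤ k ≤ n-2`.  Touching point:
`q_I(z',w') = 1`, `K q_s(z',w') = m(s)`.  (i) `β ≤ c2 λ_s`: `m(s) ≥ 0`, so `ε λ_s ≤ √(hh s) = √(hh r) ≤ (ε/2) λ_s + K_A (elk k r v X + β)` (`β = 1/t`),
hence `elk k s v X ≥ elk k r v X ≥ (ε/(4 K_A)) λ_s` for all `k, v, X` if `c2 ≤ ε/(4 K_A)`.  CPB with `κ = ε/(4 K_A)`: `q_s ≤ (C/K) λ_s ≤ c λ_s` gives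
`q_(Q s) ≥ c λ_s²`, and `Hop f > 0` as in SFA.  (ii) `β > c2 λ_s`: `q_r ≥ 0` (NW), `f ≥ K β - C λ_s > 0`. -/
def G_SFB : Prop := ∀ (n : ℕ), 4 ≤ n → ∀ ε > 0, ∃ K > 0, ∀ (T : ℝ) (F : FB n T), F.Full → F.IsRF →
  (∀ i j k l, F.Bd0 (F.R i j k l)) → (∀ z t, 0 < F.ev z t F.lam) → FGa F → SfB F ε K

/-- SFO (1.5 h, EVG, DIC, MP3, CPO, NW, FG1, FG2, RP1, RP2, RP3, RP4, LN, CL).  `n` odd.  As SFB with `m(S) = lam S`: family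
`f = K q_S(z,w) - lam S q_I(z,w) + (1 - q_I(z,w))`.  Touching: `K q_s = λ_s`.  (i) `β ≤ c2 λ_s`: CPO: `q_(Q s) ≥ c λ_s²`, `lam (Q s) ≤ C λ_s²`,
`Hop f > 0`.  (ii) `β > c2 λ_s`: `f ≥ K β - λ_s > 0`.  Conclusion `K (q_r + q_I/t) ≥ λ q_I`, so `q_r ≥ (λ/(2K)) q_I` where `t λ ≥ 2K`. -/
def G_SFO : Prop := ∀ (n : ℕ), 4 ≤ n → Odd n → ∃ ε > 0, ∃ A > 0, ∀ (T : ℝ) (F : FB n T), F.Full → F.IsRF →
  (∀ i j k l, F.Bd0 (F.R i j k l)) → (∀ z t, 0 < F.ev z t F.lam) → FGa F → QP F ε A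

/-- CHN (1.2 h, STP, CH, EN, RP1, RP2, RP3, LI, LN, WQ).  The chain, as NRD of `RFn` (see its docstring and
`Pool/Agent/Helper7/RFn/NRD.lean`), with the start `r + (B0/t) Id4 ∈ Kc θ_0` instead of PRS; induction `r + (2^k B0/t) Id4 ∈ Kc θ_k`. -/
def G_CHN : Prop := ∀ (n : ℕ), 4 ≤ n → ∀ b0 B0 : ℝ, 0 < b0 → b0 ≤ 1 / 2 → 1 ≤ B0 → ∀ ε > 0, ∃ A > 0, ∀ (T : ℝ) (F : FB n T),
  F.Full → F.IsRF → (∀ i j k l, F.Bd0 (F.R i j k l)) → (∀ z t, 0 < F.ev z t F.lam) →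
  (∀ z (t : TI T) ι, Iso (F.nv z t) ι → Kc (aF n b0) b0 (pF n b0) (pull ι (F.rv z t) + (B0 / t) • Id4 n)) → F.Round ε A

/-- NRF (1 h, CHN, FGS, INVF, LI, LN, EVG).  FGS with `ε1`, `ξ = 1` gives `b0`; `B0 = max 1 A1`.  Where `A1 ≤ t λ`: `QP` gives `Kc θ_0 r`, and
adding `β Id4`, `β ≥ 0`, keeps `Kc` (`elli Id4 = Id4/N`, `p < 1`).  Where `t λ < A1`: `β = B0/t ≥ λ`, second claim of FGS. -/
def G_NRF : Prop := ∀ (n : ℕ), 4 ≤ n → ∀ ε1 > 0, ∀ A1 > 0, ∀ ε > 0, ∃ A > 0, ∀ (T : ℝ) (F : FB n T), F.Full → F.IsRF →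
  (∀ i j k l, F.Bd0 (F.R i j k l)) → (∀ z t, 0 < F.ev z t F.lam) → FGa F → QP F ε1 A1 → F.Round ε A

/-! ## Domination -/

/-- HSQ (1.5 h, EVS, EVM, RIC, PRD, BIA, EVG, FG2, RP1, RP2).  `|h|²/λ`.  `Hop Ric_ab = 2 R_aebf Ric_ef` (trace of EVM), so
`Hop h_ab = 2 R_aebf h_ef + 2λ h_ab - (2/n)|h|² P_ab` and `Hop |h|² = 2 h·Hop h - 2 |∇h|² ≤ C λ |h|² - 2 |∇h|²`.  Quotient rule
`Hop(u/λ) = Hop u/λ - u Hop λ/λ² + 2⟨∇u,∇λ⟩/λ² - 2u|∇λ|²/λ³` for `u = |h|²`, `∇_c u = 2 h_ab ∇_c h_ab`: the gradient terms are `-(2/λ)|X|²`,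
`X_cab = ∇_c h_ab - h_ab ∇_c λ/λ`; `Hop λ ≥ 0`.  Contract `c = a`: Bianchi (RIC) gives `∇_a h_ab = ((n-2)/2) ∇_b λ`, so
`X_aab = ((n-2)/2 δ_bc - h_bc/λ) ∇_c λ`, and `h ≤ ((n-2)/2 - (n-2)/32) λ` (FG2: `Ric ≤ (n/2 - (n-2)/32) λ`; as forms on `ν^⊥`, and `∇λ ⊥ ν`), so
`((n-2)/32) |∇λ| ≤ |X_aab| ≤ √(n+1) |X|`.  `y` is `|h|²/λ` (in `B` by `comp` for `1/λ`). -/
def G_HSQ : Prop := ∀ (n : ℕ), 4 ≤ n → ∃ C > 0, ∀ (T : ℝ) (F : FB n T), F.Full → F.IsRF → (∀ z t, 0 < F.ev z t F.lam) → FGa F →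
  (∃ y : F.B, ∀ z t, F.ev z t y = F.ev z t (hB F) / F.ev z t F.lam) ∧
  ∀ y : F.B, (∀ z t, F.ev z t y = F.ev z t (hB F) / F.ev z t F.lam) → ∀ z t,
    C * F.ev z t (F.Hop y) ≤ C ^ 2 * F.ev z t (hB F) - F.ev z t (F.gg F.lam F.lam) / F.ev z t F.lam

/-- DOM (2 h, HSQ, MP3, EVG, DIC, GRW, NW, FG1, FG2, EVS, RP1, RP2, RP3, RP4, LN, CL).  Domination.  MP3 for the family over orthonormal complex pairs
`(z,w)` in `ℂ^{n+1}`, `f = cg K q_R(z,w) + q_I(z,w) [cl ε λ + cb K b + ct (K²b²/ε) t - C y - w] + (1 - q_I(z,w))`, `y = |h|²/λ` and `C` from HSQ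
(`w` = the given function).  Near `0`: `|h| ≤ 2n³ λ`, so `y ≤ 2n³ |h| ≤ 2n³ (ε λ + K b + K g)` (`SfC` for the pair), `w ≤ small`, `λ ≥ l0`: `f > 0` if
`cg, cb ≥ 2n³ C`, `cl ≥ 2n³ C + 1`.  Touching point: `q_I(z',w') = 1`; `f` is minimal over all pairs, so `g := q_r(z',w') ≥ 0` is the minimum of
`q_r/q_I`; GRW: `Hop q_R = 2 q_(Q r) ≥ (1/16) λ g`.  `Hop λ ≥ 2λ²`.  HSQ: `-C Hop y ≥ |∇λ|²/λ - C²|h|²`.  So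
`Hop f ≥ (cg K/16) λ g + 2 cl ε λ² + ct K²b²/ε - (C² + 1)|h|²` and `|h|² ≤ 2n³ λ (ε λ + K b + K g)`, `K b λ ≤ ε λ² + K²b²/(4ε)`: `Hop f > 0` for
large `cg, cl, ct`. -/
def G_DOM : Prop := ∀ (n : ℕ), 4 ≤ n → ∃ C1 > 0, ∀ (T : ℝ) (F : FB n T), F.Full → F.IsRF → ∀ l0 > 0, (∀ z t, l0 ≤ F.ev z t F.lam) →
  FGa F → ∀ ε K b : ℝ, 0 < ε → 0 < K → 0 ≤ b → SfC F ε K b → ∀ w : F.B, F.Ini (-w) 0 →
  (∀ z t, F.ev z t (F.Hop w) ≤ F.ev z t (F.gg F.lam F.lam) / F.ev z t F.lam + F.ev z t (hB F)) →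
  ∀ z (t : TI T) ι, Iso (F.nv z t) ι → ∀ z' w' : Fin n → ℂ, F.ev z t w * qf (Id4 n) z' w' ≤
    C1 * ((ε * F.ev z t F.lam + K * b + K ^ 2 * b ^ 2 / ε * t) * qf (Id4 n) z' w' + K * qf (pull ι (F.rv z t)) z' w')

/-! ## Heat flow comparison -/

/-- ZET (1.2 h, EVS, PRD, VIN, BIA).  `ζ = 1/(1/λ + 2(t+τ))`.  `Hop(1/λ) = -Hop λ/λ² - 2|∇λ|²/λ³`, `Hop λ = 2λ² + (2/n)|h|²` (EVS (1):
`|Ric|² = n λ² + |h|²`), so `p = 1/ζ` has `Hop p = -(2/n)|h|²/λ² - 2|∇λ|²/λ³` and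
`Hop ζ = -ζ² Hop p - 2ζ³|∇p|² = (2/n) ζ²|h|²/λ² + 2 ζ² |∇λ|²/λ³ (1 - ζ/λ)`, `ζ ≤ λ`.  `|∇ζ|² = ζ⁴|∇λ|²/λ⁴`.  `V` kills `ζ` (`chain`, `ext`). -/
def G_ZET : Prop := ∀ (n : ℕ), 4 ≤ n → ∀ (T : ℝ) (F : FB n T), F.Full → F.IsRF → (∀ z t, 0 < F.ev z t F.lam) → ∀ τ > 0,
  (∃ ze : F.B, ∀ z (t : TI T), F.ev z t ze = 1 / (1 / F.ev z t F.lam + 2 * ((t : ℝ) + τ))) ∧
  ∀ ze : F.B, (∀ z (t : TI T), F.ev z t ze = 1 / (1 / F.ev z t F.lam + 2 * ((t : ℝ) + τ))) →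
    F.VI ze ∧ ∀ z t, 0 < F.ev z t ze ∧ F.ev z t ze ≤ F.ev z t F.lam ∧ F.ev z t ze ≤ 1 / (2 * τ) ∧
      0 ≤ F.ev z t (F.Hop ze) ∧
      F.ev z t (F.Hop ze) ≤ 2 / n * F.ev z t (hB F) + 2 * (F.ev z t (F.gg F.lam F.lam) / F.ev z t F.lam) ∧
      F.ev z t (F.gg ze ze) ≤ F.ev z t ze * (F.ev z t (F.gg F.lam F.lam) / F.ev z t F.lam)

/-- GRH (1 h, MP1, EVS, BIA, PRD, VIN).  Hamilton's gradient estimate for the heat equation along the Ricci flow.  `f = q log(M/q) - t |∇q|²/q`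
(in `B` by `comp`).  `Hop(q log(M/q)) = |∇q|²/q`; `Hop |∇q|² = -2 h2 q` (EVS), `Hop(|∇q|²/q) = -2 h2/q + 2⟨∇|∇q|²,∇q⟩/q² - 2|∇q|⁴/q³ ≤ 0` (BIA:
`⟨∇|∇q|²,∇q⟩² ≤ 4|∇q|⁴ h2`).  So `Hop f ≥ 0`; near `0`: `f ≥ -t C/c`.  MP1 (`K = 0`, `t1 = 0`). -/
def G_GRH : Prop := ∀ (n : ℕ), 4 ≤ n → ∀ (T : ℝ) (F : FB n T), F.Full → F.IsRF → ∀ (q : F.B) (c M : ℝ), 0 < c →
  F.VI q → F.D q = F.Lap q → (∀ z t, c ≤ F.ev z t q ∧ F.ev z t q < M) → F.Bd0 (F.gg q q) →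
  ∀ z (t : TI T), t * F.ev z t (F.gg q q) ≤ F.ev z t q ^ 2 * Real.log (M / F.ev z t q)

/-- the heat solutions with initial values `ζ` and `ζ²` -/
structure Hz {n : ℕ} {T : ℝ} (F : FB n T) (τ : ℝ) (ze u zz : F.B) : Prop where
  zef : ∀ z (t : TI T), F.ev z t ze = 1 / (1 / F.ev z t F.lam + 2 * ((t : ℝ) + τ))
  viu : F.VI u
  viz : F.VI zz
  heu : F.D u = F.Lap u
  hez : F.D zz = F.Lap zz
  iu1 : F.Ini (u - ze) 0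
  iu2 : F.Ini (ze - u) 0
  iz1 : F.Ini (zz - ze ^ 2) 0
  iz2 : F.Ini (ze ^ 2 - zz) 0
  bu : F.Bd0 (F.gg u u)
  bz : F.Bd0 (F.gg zz zz)

/-- HR1 (1.5 h, DOM, ZET, MP1, PRD, VIN, BIA, EVS, BDD).  `e = ζ - u`: `Hop e = Hop ζ ≥ 0`, so `e ≥ 0` (MP1), and `u ≥ 0`, `zz ≥ 0`, `e ≤ ζ ≤ 1/(2τ)`.
`Hop(zz - u²) = 2|∇u|² ≥ 0`: `zz - u² ≥ 0`.  `2|∇u|² ≤ 4|∇ζ|² + 4|∇e|²`, so `Hop(zz - u² + 2e²) = 2|∇u|² + 4e Hop e - 4|∇e|² ≤ 4|∇ζ|² + 4e Hop ζ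
≤ (2/τ)|∇λ|²/λ + (2/τ)((2/n)|h|² + 2|∇λ|²/λ) ≤ (6/τ)(|∇λ|²/λ + |h|²)` (ZET).  DOM for `w = e/2` and for `w = (τ/6)(zz - u² + 2e²)`; initial conditions
from `Hz` and `ζ ≤ 1/(2τ)`. -/
def G_HR1 : Prop := ∀ (n : ℕ), 4 ≤ n → ∃ C2 > 0, ∀ (T : ℝ) (F : FB n T), F.Full → F.IsRF → ∀ l0 > 0, (∀ z t, l0 ≤ F.ev z t F.lam) →
  FGa F → ∀ ε K b : ℝ, 0 < ε → 0 < K → 0 ≤ b → SfC F ε K b → ∀ τ > 0, ∀ ze u zz : F.B, Hz F τ ze u zz →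
  ∀ z (t : TI T), 0 ≤ F.ev z t (ze - u) ∧ 0 ≤ F.ev z t u ∧ 0 ≤ F.ev z t (zz - u ^ 2) ∧
    ∀ ι, Iso (F.nv z t) ι → ∀ z' w' : Fin n → ℂ,
      F.ev z t (ze - u) * qf (Id4 n) z' w' ≤
        C2 * ((ε * F.ev z t F.lam + K * b + K ^ 2 * b ^ 2 / ε * t) * qf (Id4 n) z' w' + K * qf (pull ι (F.rv z t)) z' w') ∧
      τ * F.ev z t (zz - u ^ 2) * qf (Id4 n) z' w' ≤
        C2 * ((ε * F.ev z t F.lam + K * b + K ^ 2 * b ^ 2 / ε * t) * qf (Id4 n) z' w' + K * qf (pull ι (F.rv z t)) z' w')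

/-- HRN (1.8 h, HR1, ZET, GRH, MP1, PRD, VIN, BIA, BDD).  Harnack inequality.  `λ* = 1/τ = λ(y,τ)`.  At `(y,τ)`: `ζ = λ*/5`; HR1: `0 ≤ ζ - u ≤ C2 η λ*`, so
`a := u(y,τ) ≥ λ*/5 - C2 η λ*`, `a ≤ λ*/5`, and `zz - u² ≤ C2 η λ*²`.  `q = zz - 2a u + a² + δ λ*²` (`0 < δ ≤ 1/8`) is a heat solution,
`q - δ λ*² = (zz - u²) + (u - a)² ≥ (u - a)²`, `δ λ*² ≤ q`, `q(y,τ) ≤ (C2 η + δ) λ*²`, and `q ≤ (1/4 + 2δ) λ*² < M := λ*²` for all times: at time `0`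
`q - δλ*² = (ζ - a)² ≤ λ*²/4` (`0 ≤ ζ ≤ λ*/2`, `0 ≤ a ≤ λ*/2`), MP1.  GRH at `t = τ`.  `hb = 2√τ (√log(M/q(y,τ)) - √log(M/q))` (`comp` on `(0,M)`):
`gg hb hb = τ |∇q|²/(q² log(M/q)) ≤ 1` at time `τ`, `hb = 0` at `(y,τ)`.  If `hb ≤ l √τ` at `(z,τ)`: `√log(M/q) ≥ √log(M/q(y,τ)) - l/2`, and
`M/q(y,τ) ≥ 1/(C2 η + δ)` is large for small `η, δ` (depending on `l`), so `q ≤ λ*²/400`, `λ ≥ ζ ≥ u ≥ a - √q ≥ λ*/10`. -/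
def G_HRN : Prop := ∀ (n : ℕ), 4 ≤ n → ∀ l > 0, ∃ η > 0, ∀ (T : ℝ) (F : FB n T), F.Full → F.IsRF → ∀ l0 > 0,
  (∀ z t, l0 ≤ F.ev z t F.lam) → FGa F → ∀ ε K b : ℝ, 0 < ε → 0 < K → 0 ≤ b → SfC F ε K b →
  ∀ (τ : TI T) (y : F.Z), τ * F.ev y τ F.lam = 1 →
  (∃ ι, Iso (F.nv y τ) ι ∧ ∃ z' w' : Fin n → ℂ, qf (Id4 n) z' w' ≠ 0 ∧
    (ε * F.ev y τ F.lam + K * b + K ^ 2 * b ^ 2 / ε * τ) * qf (Id4 n) z' w' + K * qf (pull ι (F.rv y τ)) z' w'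
      ≤ η * F.ev y τ F.lam * qf (Id4 n) z' w') →
  ∀ ze u zz : F.B, Hz F τ ze u zz →
  ∃ hb : F.B, F.VI hb ∧ (∀ z, F.ev z τ (F.gg hb hb) ≤ 1) ∧ F.ev y τ hb ≤ 0 ∧
    ∀ z, F.ev z τ hb ≤ l * Real.sqrt τ → 1 / (10 * τ) ≤ F.ev z τ F.lam

/-! ## Static metrics -/

/-- lower Ricci bound at a point -/
def RcGe {n : ℕ} {T : ℝ} (F : FB n T) (z : F.Z) (t : TI T) (k : ℝ) : Prop := ∀ v : Ix n → ℝ,
  k * (nrm v - dot v (F.nv z t) ^ 2) ≤ ∑ a, ∑ b, F.ev z t (F.Ric a b) * v a * v b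

/-- STH (1 h, MP1, BOC, PRD, VIN, BDD, BIA).  Static heat equation, `Ric ≥ 0`.  `D H_a u = H_a D u`, `Lap H_a u = H_a Lap u + Ric_ab H_b u` (BOC), so
`Hop |∇u|² = -2 Ric(∇u,∇u) - 2 h2 u ≤ -2 h2 u`; `Hop (Lap u) = 0`, `(Lap u)² ≤ (n+1) h2 u` (BIA).
`F0 = t (Lap u)² + ((n+1)/2)|∇u|²`: `Hop F0 ≤ (Lap u)² - (n+1) h2 u ≤ 0`.  MP1 for `1 - |∇u|²` and `(n+1)/2 - F0`. -/
def G_STH : Prop := ∀ (n : ℕ), 2 ≤ n → ∀ (T : ℝ) (F : FB n T), F.Full → (∀ i j, F.S i j = 0) → (∀ z t, RcGe F z t 0) →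
  ∀ u : F.B, F.VI u → F.D u = F.Lap u → F.Ini (-F.gg u u) (-1) → F.Bd0 (F.Lap u) →
  ∀ z (t : TI T), F.ev z t (F.gg u u) ≤ 1 ∧ t * F.ev z t (F.Lap u) ^ 2 ≤ n + 1

/-- CUT (1.2 h, MP1, BOC, PRD, VIN, BIA).  Static heat equation with a cut-off.  `ψ = exp(√k (w - c0) + k t)`, `Hop ψ = (k - k|∇w|²) ψ ≥ 0`.
MP1 (`K = 0`, on `(0,1/k]`, or any `T1 ≤ 1/k`, `T1 < T`) for `f = exp(-2kt) + ψ - |∇u|²`: where `f < 0` we have `ψ < |∇u|² ≤ 1`, so (`k t ≥ 0`) `w < c0`, `Ric ≥ k`,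
`Hop |∇u|² ≤ -2k|∇u|²` (`∇u ⊥ ν`) and `Hop f ≥ -2k exp(-2kt) + 2k |∇u|² ≥ 2k ψ ≥ 0`. -/
def G_CUT : Prop := ∀ (n : ℕ), 2 ≤ n → ∀ (T : ℝ) (F : FB n T), F.Full → (∀ i j, F.S i j = 0) → (∀ z t, RcGe F z t 0) →
  ∀ k c0 : ℝ, 0 < k → ∀ u w : F.B, F.VI u → F.VI w → F.D u = F.Lap u → F.D w = F.Lap w →
  (∀ z t, F.ev z t (F.gg u u) ≤ 1 ∧ F.ev z t (F.gg w w) ≤ 1) →
  (∀ z (t : TI T), k * t ≤ 1 → F.ev z t w ≤ c0 → RcGe F z t k) →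
  ∀ z (t : TI T), k * t ≤ 1 →
    F.ev z t (F.gg u u) ≤ Real.exp (-(2 * k * t)) + Real.exp (Real.sqrt k * (F.ev z t w - c0) + k * t)

/-! ## The Gauss-Bonnet integrand -/

/-- even positions -/
def pe {m : ℕ} (j : Fin m) : Fin (2 * m + 1) := ⟨2 * j.1 + 1, by omega⟩

/-- odd positions -/
def po {m : ℕ} (j : Fin m) : Fin (2 * m + 1) := ⟨2 * j.1 + 2, by omega⟩

/-- double alternating sum -/
def alt {m : ℕ} {B : Type} [CommRing B] (X : (Fin (2 * m + 1) → Fin (2 * m + 1)) → (Fin (2 * m + 1) → Fin (2 * m + 1)) → B) : B :=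
  ∑ s : Equiv.Perm (Fin (2 * m + 1)), ∑ p : Equiv.Perm (Fin (2 * m + 1)),
    ((Equiv.Perm.sign s : ℤ) * (Equiv.Perm.sign p : ℤ)) • X s p

/-- Pfaffian `∑ sign sign ν ν R … R` (`n = 2m`) -/
def pf {m : ℕ} {T : ℝ} (F : FB (2 * m) T) : F.B :=
  alt (fun s p => F.nu (s 0) * F.nu (p 0) * ∏ j : Fin m, F.R (s (pe j)) (s (po j)) (p (pe j)) (p (po j)))

/-- the divergence part, component `x` -/
def pw {m : ℕ} {T : ℝ} (F : FB (2 * m) T) (x : Ix (2 * m)) : F.B :=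
  ∑ i : Fin m, alt (fun s p => (if s (pe i) = x then (-2 : F.B) else 0) * (F.nu (s 0) * F.nu (p 0) *
    (F.Y (s (po i)) (p (pe i)) (p (po i)) *
      ∏ j ∈ univ.erase i, F.R (s (pe j)) (s (po j)) (p (pe j)) (p (po j)))))

/-- PF1 (1.2 h).  Trace identity, for arbitrary `S`, `X`.  For fixed `σ, i` the term `e = σ i` is `S_(σi)(σi) X(σ)`; summed over `i`:
`(tr S) X(σ)`.  The other terms are indexed by `(σ, i, i')`, `i ≠ i'`, `e = σ i'`: `sign σ S_(σ i)(σ i') X(update σ i (σ i'))`.  The involution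
`(σ, i, i') ↦ (σ * swap i i', i', i)` changes the sign of `σ`, and `S_(σ i)(σ i')` and the array (value `σ i'` at `i` and at `i'`, the old values
elsewhere) do not change: these terms cancel. -/
def G_PF1 : Prop := ∀ (N : ℕ) (B : Type) [CommRing B] [Algebra ℝ B] (S : Fin N → Fin N → B) (X : (Fin N → Fin N) → B),
  (∑ s : Equiv.Perm (Fin N), (Equiv.Perm.sign s : ℤ) • ∑ i, ∑ e, S (s i) e * X (Function.update (s : Fin N → Fin N) i e)) =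
    (∑ i, S i i) * ∑ s : Equiv.Perm (Fin N), (Equiv.Perm.sign s : ℤ) • X s

/-- PF2 (0.6 h).  Alternating sums which vanish.  Cyclic: a 3-cycle is even, so `3 ∑ sign σ X(σ) = ∑ sign σ (X σ + X(σ c) + X(σ c²)) = 0`.
Transposition: `∑ sign σ X(σ) = -∑ sign σ X(σ ∘ swap i j)`. -/
def G_PF2 : Prop := ∀ (N : ℕ) (B : Type) [CommRing B] [Algebra ℝ B] (X : (Fin N → Fin N) → B),
  (∀ i j k : Fin N, i ≠ j → j ≠ k → i ≠ k →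
    (∀ a : Fin N → Fin N, X a + X (fun l => a ((Equiv.swap i j * Equiv.swap j k) l)) +
      X (fun l => a ((Equiv.swap j k * Equiv.swap i j) l)) = 0) →
    ∑ s : Equiv.Perm (Fin N), (Equiv.Perm.sign s : ℤ) • X s = 0) ∧
  (∀ i j : Fin N, i ≠ j → ∑ s : Equiv.Perm (Fin N), (Equiv.Perm.sign s : ℤ) • X (fun l => s (Equiv.swap i j l)) =
    - ∑ s : Equiv.Perm (Fin N), (Equiv.Perm.sign s : ℤ) • X s)

/-- PF3 (2 h, PF1, PF2).  Evolution of the Pfaffian.  `Dnu`, `Hnu`, product rule.  `D pf = ∑_i alt(νν (D R_i) ∏_(j≠i) R_j)`, `R_i =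
R_abcd`, `a = s(pe i)`, `b = s(po i)`, `c = p(pe i)`, `d = p(po i)`, and `DR`: `D R_abcd = S_ae R_ebcd + S_be R_aecd - H_a Y_bcd + H_b Y_acd`.  The `S` terms together
with `S_(s 0) e ν_e = 0` (`nuS`) are PF1 (in `s`, for fixed `p`): `(tr S) pf`.  Exchange of `a, b` (PF2): the `Y` terms are `-2 H_a Y_bcd`.
`∑_x H_x pw_x = ∑_i alt(-2 νν (H_a Y_bcd ∏_(j≠i) R_j + Y_bcd ∑_(j≠i) (H_a R_j) ∏ R))` and the second part vanishes by `bia2` and the cyclic part of PF2 for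
the positions `pe i, pe j, po j`. -/
def G_PF3 : Prop := ∀ (m : ℕ) (T : ℝ) (F : FB (2 * m) T), F.Full →
  F.D (pf F) = (∑ a, F.S a a) * pf F + ∑ x, F.H x (pw F x)

/-- PF4 (1.5 h, PF1).  Invariance.  `V k l` acts on every index as the infinitesimal rotation `S_ae = δ_la δ_ke - δ_ka δ_le` (`Vnu`, `VR`; `Y` is a
3-tensor: `VI`-type computation from `VR`/`VH` and `Ssymm`; the action of `V` on `S` is a hypothesis) with trace zero: PF1 for `s` and for `p`.  For `pw x`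
the factor `δ_(s(pe i)) x` is not rotated: `V_kl pw_x = δ_lx pw_k - δ_kx pw_l` (the full rotation of all indices including `x` vanishes). -/
def G_PF4 : Prop := ∀ (m : ℕ) (T : ℝ) (F : FB (2 * m) T), F.Full →
  (∀ k l a b, F.V k l (F.S a b) = F.dl l a * F.S k b - F.dl k a * F.S l b + F.dl l b * F.S a k - F.dl k b * F.S a l) →
  F.VI (pf F) ∧ ∀ k l x, F.V k l (pw F x) = F.dl l x * pw F k - F.dl k x * pw F l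

/-- the Pfaffian of a tensor -/
def pft {m : ℕ} (R : T4 (2 * m + 1)) (ν : Fin (2 * m + 1) → ℝ) : ℝ :=
  alt (fun s p => ν (s 0) * ν (p 0) * ∏ j : Fin m, R (s (pe j)) (s (po j)) (p (pe j)) (p (po j)))

/-- PF5 (1.5 h, PF2).  Values.  (1) trivial bound, `((2m+1)!)²` terms.  (2) `R = κ I`: `∏ (P P - P P)`; exchange of `p(pe j), p(po j)` (PF2): `2^m κ^m
alt(ν_(s0) ν_(p0) ∏_(k≥1) P_(s k)(p k))`; `P_ab = δ_ab - ν_a ν_b` and the terms with `ν_(s k)` vanish by the transposition `(0 k)` in `s`: `P` can be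
replaced by `δ`, so only `p = s` remains: `∑_s ν_(s 0)² = (2m)!`.  (3) telescope the product `∏ R_j - ∏ κ I_j`. -/
def G_PF5 : Prop := ∀ m : ℕ, 1 ≤ m → ∃ C > 0, ∀ (R : T4 (2 * m + 1)) (ν : Fin (2 * m + 1) → ℝ), ∑ i, ν i ^ 2 = 1 →
  (∀ M, (∀ a b c d, |R a b c d| ≤ M) → |pft R ν| ≤ C * M ^ m) ∧
  (∀ κ : ℝ, pft (κ • wdg (Pm ν) (Pm ν)) ν = 2 ^ m * (Nat.factorial (2 * m) : ℝ) * κ ^ m) ∧
  (∀ κ e : ℝ, 0 ≤ e → e ≤ κ → (∀ a b c d, |R a b c d - (κ • wdg (Pm ν) (Pm ν)) a b c d| ≤ e) →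
    2 ^ m * (Nat.factorial (2 * m) : ℝ) * κ ^ m - C * e * κ ^ (m - 1) ≤ pft R ν) ∧
  (∀ O : Fin (2 * m + 1) → Fin (2 * m + 1) → ℝ, ON O → pft (rot O R) (fun a => dot (O a) ν) = pft R ν)

end Pool.Agent.Helper47.FLG
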